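import Pool.Agent.TH253.FV.Stm

/-!
# Lower bound for a determinant
-/

set_option autoImplicit false

namespace Pool.Agent.TH253.FV.DL

open Pool.Agent.W716.FV (E)

theorem hs2 {t : ℝ} (ht : |t| < 1) :
    HasSum (fun n : ℕ => t ^ (n + 1 + 1) / ((n + 1 : ℕ) + 1 : ℝ)) (-Real.log (1 - t) - t) := by
  have h1 := Real.hasSum_pow_div_log_of_abs_lt_one ht
  have := (hasSum_nat_add_iff' 1).2 h1
  simpa using this

/-- comparison of `-log (1 - t) - t` with its value at `s` -/
theorem log_ineq {t s : ℝ} (hs0 : 0 < s) (hs : s < 1) (ht : t ≤ s) (ht1 : |t| < 1) :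
    -Real.log (1 - t) - t ≤ t ^ 2 / s ^ 2 * (-Real.log (1 - s) - s) := by
  have hss : |s| < 1 := by rw [abs_of_pos hs0]; exact hs
  have h4 := hs2 hss
  rcases le_total 0 t with h0 | h0
  · have h3 := hs2 ht1
    refine hasSum_le (fun n => ?_) h3 (h4.mul_left (t ^ 2 / s ^ 2))
    have h5 : t ^ (n + 1 + 1) ≤ t ^ 2 * s ^ n := by
      have e : t ^ (n + 1 + 1) = t ^ 2 * t ^ n := by ring
      rw [e]
      exact mul_le_mul_of_nonneg_left (pow_le_pow_left₀ h0 ht n) (sq_nonneg t)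
    have h6 : t ^ 2 / s ^ 2 * (s ^ (n + 1 + 1) / ((n + 1 : ℕ) + 1 : ℝ)) =
        t ^ 2 * s ^ n / ((n + 1 : ℕ) + 1 : ℝ) := by
      have : s ≠ 0 := hs0.ne'
      field_simp
      ring
    rw [h6]
    exact div_le_div_of_nonneg_right h5 (by positivity)
  · -- negative `t`
    have h1 : -Real.log (1 - t) - t ≤ t ^ 2 / 2 := by
      have h2 := Real.le_log_one_add_of_nonneg (x := -t) (by linarith)
      have e : 1 + -t = 1 - t := by ring
      rw [e] at h2
      have h3 : -t - t ^ 2 / 2 ≤ 2 * -t / (-t + 2) := by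
        rw [le_div_iff₀ (by linarith)]
        nlinarith [mul_nonneg (sq_nonneg t) (neg_nonneg.2 h0)]
      linarith
    have h2 : s ^ 2 / 2 ≤ -Real.log (1 - s) - s := by
      have h3 := le_hasSum h4 0 (fun n _ => by positivity)
      refine le_trans (le_of_eq ?_) h3
      norm_num
    calc -Real.log (1 - t) - t ≤ t ^ 2 / 2 := h1
      _ = t ^ 2 / s ^ 2 * (s ^ 2 / 2) := by
        have : s ≠ 0 := hs0.ne'
        field_simp
      _ ≤ _ := mul_le_mul_of_nonneg_left h2 (by positivity)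

/-- `1 - t` from below -/
theorem exp_ineq {t s : ℝ} (hs0 : 0 < s) (hs : s < 1) (ht : t ≤ s) (ht1 : |t| < 1) :
    Real.exp (-t + t ^ 2 / s ^ 2 * (Real.log (1 - s) + s)) ≤ 1 - t := by
  have h := log_ineq hs0 hs ht ht1
  rw [← Real.le_log_iff_exp_le (by linarith)]
  have e : t ^ 2 / s ^ 2 * (Real.log (1 - s) + s) = -(t ^ 2 / s ^ 2 * (-Real.log (1 - s) - s)) := by
    ring
  rw [e]
  linarith

/-! ### the polynomial -/

/-- derivative of `pp` -/
noncomputable def pp1 (s : ℝ) : ℝ := -(2 / 3) - 4 / 9 * s - 3 / 7 * s ^ 2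

/-- second derivative of `pp` -/
noncomputable def pp2 (s : ℝ) : ℝ := -(4 / 9) - 6 / 7 * s

theorem pp_pos {s : ℝ} (h0 : 0 ≤ s) (h1 : s ≤ 17 / 25) : 0 < pp s := by
  unfold pp
  nlinarith [mul_nonneg h0 (sub_nonneg.2 h1), pow_nonneg h0 2, pow_nonneg h0 3,
    mul_nonneg (pow_nonneg h0 2) (sub_nonneg.2 h1)]

theorem pp_der (s : ℝ) : HasDerivAt pp (pp1 s) s := by
  have h1 := ((hasDerivAt_id s).const_mul (2 / 3 : ℝ)).const_sub 1
  have h2 := h1.sub ((hasDerivAt_pow 2 s).const_mul (2 / 9 : ℝ))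
  have h3 := h2.sub ((hasDerivAt_pow 3 s).const_mul (1 / 7 : ℝ))
  refine h3.congr_deriv ?_
  unfold pp1
  norm_num
  ring

theorem pp1_der (s : ℝ) : HasDerivAt pp1 (pp2 s) s := by
  have h1 := ((hasDerivAt_id s).const_mul (4 / 9 : ℝ)).const_sub (-(2 / 3))
  have h2 := h1.sub ((hasDerivAt_pow 2 s).const_mul (3 / 7 : ℝ))
  refine h2.congr_deriv ?_
  unfold pp2
  norm_num
  ring

/-- the numerator of the second derivative -/
theorem num_nonneg {s : ℝ} (h0 : 0 ≤ s) (h1 : s ≤ 17 / 25) :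
    0 ≤ -(4 / 3) * pp s ^ 2 - (1 - s) ^ 2 * (2 * pp1 s * pp s + s * (pp2 s * pp s - pp1 s ^ 2)) := by
  have e : -(4 / 3) * pp s ^ 2 - (1 - s) ^ 2 * (2 * pp1 s * pp s +
      s * (pp2 s * pp s - pp1 s ^ 2)) =
      s ^ 2 * (128 / 189 - 1264 / 567 * s + 3968 / 1701 * s ^ 2 - 2483 / 3969 * s ^ 3 -
        2 / 21 * s ^ 4 - 3 / 49 * s ^ 5) := by
    unfold pp pp1 pp2
    ring
  rw [e]
  refine mul_nonneg (sq_nonneg s) ?_
  have hb : 0 ≤ 17 / 25 - s := by linarith
  have k0 := pow_nonneg hb 5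
  have k1 := mul_nonneg h0 (pow_nonneg hb 4)
  have k2 := mul_nonneg (pow_nonneg h0 2) (pow_nonneg hb 3)
  have k3 := mul_nonneg (pow_nonneg h0 3) (pow_nonneg hb 2)
  have k4 := mul_nonneg (pow_nonneg h0 4) hb
  have k5 := pow_nonneg h0 5
  nlinarith [k0, k1, k2, k3, k4, k5]

/-- the function -/
noncomputable def hh (s : ℝ) : ℝ := 4 / 3 * (Real.log (1 - s) + s) - s * Real.log (pp s)

/-- its derivative -/
noncomputable def gg (s : ℝ) : ℝ :=
  4 / 3 * (1 - (1 - s)⁻¹) - Real.log (pp s) - s * (pp1 s / pp s)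

theorem hh_der {s : ℝ} (h0 : 0 ≤ s) (h1 : s ≤ 17 / 25) : HasDerivAt hh (gg s) s := by
  have hp := pp_pos h0 h1
  have hs : (1 : ℝ) - s ≠ 0 := by linarith
  have h2 : HasDerivAt (fun s : ℝ => 1 - s) (-1) s := by
    simpa using (hasDerivAt_id s).const_sub 1
  have h3 := (((h2.log hs).add (hasDerivAt_id s)).const_mul (4 / 3 : ℝ)).sub
    ((hasDerivAt_id s).mul ((pp_der s).log hp.ne'))
  refine h3.congr_deriv ?_
  unfold gg
  simp only [id]
  ring

theorem gg_der {s : ℝ} (h0 : 0 ≤ s) (h1 : s ≤ 17 / 25) : HasDerivAt gg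
    ((-(4 / 3) * pp s ^ 2 - (1 - s) ^ 2 * (2 * pp1 s * pp s + s * (pp2 s * pp s - pp1 s ^ 2))) /
      ((1 - s) ^ 2 * pp s ^ 2)) s := by
  have hp := (pp_pos h0 h1).ne'
  have hs : (1 : ℝ) - s ≠ 0 := by linarith
  have h2 : HasDerivAt (fun s : ℝ => 1 - s) (-1) s := by
    simpa using (hasDerivAt_id s).const_sub 1
  have h3 := ((((h2.inv hs).const_sub 1).const_mul (4 / 3 : ℝ)).sub ((pp_der s).log hp)).sub
    ((hasDerivAt_id s).mul ((pp1_der s).div (pp_der s) hp))
  refine h3.congr_deriv ?_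
  simp only [id, Pi.div_apply]
  field_simp
  ring

theorem gg_nonneg {s : ℝ} (h0 : 0 ≤ s) (h1 : s ≤ 17 / 25) : 0 ≤ gg s := by
  have hmono : MonotoneOn gg (Set.Icc 0 (17 / 25)) := by
    refine monotoneOn_of_deriv_nonneg (convex_Icc _ _) ?_ ?_ ?_
    · exact fun x hx => (gg_der hx.1 hx.2).continuousAt.continuousWithinAt
    · intro x hx
      rw [interior_Icc] at hx
      exact (gg_der hx.1.le hx.2.le).differentiableAt.differentiableWithinAt
    · intro x hx
      rw [interior_Icc] at hx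
      rw [(gg_der hx.1.le hx.2.le).deriv]
      exact div_nonneg (num_nonneg hx.1.le hx.2.le) (by positivity)
  have h := hmono (⟨le_rfl, by norm_num⟩ : (0 : ℝ) ∈ Set.Icc (0 : ℝ) (17 / 25)) ⟨h0, h1⟩ h0
  have e : gg 0 = 0 := by simp [gg, pp]
  linarith

theorem hh_nonneg {s : ℝ} (h0 : 0 ≤ s) (h1 : s ≤ 17 / 25) : 0 ≤ hh s := by
  have hmono : MonotoneOn hh (Set.Icc 0 (17 / 25)) := by
    refine monotoneOn_of_deriv_nonneg (convex_Icc _ _) ?_ ?_ ?_
    · exact fun x hx => (hh_der hx.1 hx.2).continuousAt.continuousWithinAt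
    · intro x hx
      rw [interior_Icc] at hx
      exact (hh_der hx.1.le hx.2.le).differentiableAt.differentiableWithinAt
    · intro x hx
      rw [interior_Icc] at hx
      rw [(hh_der hx.1.le hx.2.le).deriv]
      exact gg_nonneg hx.1.le hx.2.le
  have h := hmono (⟨le_rfl, by norm_num⟩ : (0 : ℝ) ∈ Set.Icc (0 : ℝ) (17 / 25)) ⟨h0, h1⟩ h0
  have e : hh 0 = 0 := by simp [hh]
  linarith

theorem pp_le {s : ℝ} (h0 : 0 < s) (h1 : s ≤ 17 / 25) :
    pp s ≤ Real.exp (4 / (3 * s) * (Real.log (1 - s) + s)) := by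
  have h := hh_nonneg h0.le h1
  rw [← Real.log_le_iff_le_exp (pp_pos h0.le h1)]
  have e : 4 / (3 * s) * (Real.log (1 - s) + s) = 4 / 3 * (Real.log (1 - s) + s) / s := by
    field_simp
  rw [e, le_div_iff₀ h0]
  unfold hh at h
  linarith

theorem main : DetLower2 := by
  intro n A s hA hAs hs0 hs1 hs
  set T : E n →ₗ[ℝ] E n := (A : E n →ₗ[ℝ] E n) with hTdef
  have hT : T.IsSymmetric := by
    intro v w
    have h := hA v w
    rw [real_inner_comm] at h
    rw [real_inner_comm] at h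
    exact h.trans (real_inner_comm _ _)
  have hn : Module.finrank ℝ (E n) = n := by simp
  set ev := hT.eigenvalues hn with hev
  set b := hT.eigenvectorBasis hn with hb
  -- sum of the squares
  have hsq : ∑ i, ‖A (EuclideanSpace.single i 1)‖ ^ 2 = ∑ i, ev i ^ 2 := by
    have h1 := LinearMap.trace_eq_sum_inner (T ∘ₗ T) (EuclideanSpace.basisFun (Fin n) ℝ)
    have h2 := LinearMap.trace_eq_sum_inner (T ∘ₗ T) b
    have h3 : ∑ i, ‖A (EuclideanSpace.single i 1)‖ ^ 2 = LinearMap.trace ℝ (E n) (T ∘ₗ T) := by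
      rw [h1]
      refine Finset.sum_congr rfl (fun i _ => ?_)
      rw [LinearMap.comp_apply, ← hT, EuclideanSpace.basisFun_apply, real_inner_self_eq_norm_sq]
      rfl
    rw [h3, h2]
    refine Finset.sum_congr rfl (fun i _ => ?_)
    rw [LinearMap.comp_apply, ← hT, hT.apply_eigenvectorBasis hn i, real_inner_self_eq_norm_sq,
      norm_smul, mul_pow]
    rw [(hT.eigenvectorBasis hn).norm_eq_one]
    simp [hev]
  have htr : LinearMap.trace ℝ (E n) T = ∑ i, ev i := by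
    have := hT.trace_eq_sum_eigenvalues hn
    simpa using this
  have hdet : (A - ContinuousLinearMap.id ℝ (E n)).det = ∏ i, (ev i - 1) := by
    rw [ContinuousLinearMap.det]
    have h1 : ((A - ContinuousLinearMap.id ℝ (E n) : E n →L[ℝ] E n) : E n →ₗ[ℝ] E n) =
        T - LinearMap.id := by
      ext v; simp [hTdef]
    rw [h1, ← LinearMap.det_toMatrix b.toBasis, map_sub, LinearMap.toMatrix_id,
      hT.toMatrix_eigenvectorBasis hn]
    rw [← Matrix.diagonal_one, Matrix.diagonal_sub, Matrix.det_diagonal]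
    rfl
  -- the eigenvalues are at most `s`
  have hevs : ∀ i, ev i ≤ s := by
    intro i
    have h1 := hAs (b i)
    have h2 : A (b i) = ev i • b i := by
      have := hT.apply_eigenvectorBasis hn i
      exact this
    rw [h2, real_inner_smul_left, real_inner_self_eq_norm_sq, b.norm_eq_one] at h1
    linarith
  rw [htr, hdet]
  rw [hsq] at hs
  have hev2 : ∀ i, ev i ^ 2 ≤ 4 / 3 * s := fun i =>
    le_trans (Finset.single_le_sum (f := fun i => ev i ^ 2) (fun j _ => sq_nonneg _)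
      (Finset.mem_univ i)) hs
  rcases hs0.eq_or_lt with h0 | hspos
  · -- `s = 0`
    have hz : ∀ i, ev i = 0 := by
      intro i
      have h := hev2 i
      rw [← h0, mul_zero] at h
      exact pow_eq_zero_iff (two_ne_zero) |>.1 (le_antisymm h (sq_nonneg _))
    rw [← h0]
    simp [hz, pp]
  have hs1' : s < 1 := by linarith
  have habs : ∀ i, |ev i| < 1 := fun i => by
    apply abs_lt_of_sq_lt_sq _ zero_le_one
    have := hev2 i
    linarith
  have hl : Real.log (1 - s) + s ≤ 0 := by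
    have := Real.log_le_sub_one_of_pos (show (0 : ℝ) < 1 - s by linarith)
    linarith
  have h1 := pp_le hspos hs1
  have h2 : 4 / (3 * s) * (Real.log (1 - s) + s) ≤
      ∑ i, ev i ^ 2 / s ^ 2 * (Real.log (1 - s) + s) := by
    rw [← Finset.sum_mul, ← Finset.sum_div]
    have h3 : (∑ i, ev i ^ 2) / s ^ 2 ≤ 4 / (3 * s) := by
      rw [div_le_div_iff₀ (by positivity) (by positivity)]
      nlinarith
    nlinarith
  calc pp s * Real.exp (-∑ i, ev i) ≤
      Real.exp (∑ i, ev i ^ 2 / s ^ 2 * (Real.log (1 - s) + s)) * Real.exp (-∑ i, ev i) := by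
        refine mul_le_mul_of_nonneg_right (h1.trans (Real.exp_le_exp.2 h2)) (Real.exp_pos _).le
    _ = Real.exp (∑ i, (-ev i + ev i ^ 2 / s ^ 2 * (Real.log (1 - s) + s))) := by
        rw [← Real.exp_add, Finset.sum_add_distrib, Finset.sum_neg_distrib, add_comm]
    _ = ∏ i, Real.exp (-ev i + ev i ^ 2 / s ^ 2 * (Real.log (1 - s) + s)) := Real.exp_sum _ _
    _ ≤ |∏ i, (ev i - 1)| := by
        rw [Finset.abs_prod]
        refine Finset.prod_le_prod (fun i _ => (Real.exp_pos _).le) (fun i _ => ?_)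
        refine (exp_ineq hspos hs1' (hevs i) (habs i)).trans ?_
        rw [abs_sub_comm]
        exact le_abs_self _

end Pool.Agent.TH253.FV.DL
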