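import Pool.Agent.TH253.FV.Stm
import Pool.Agent.W125.FV.AI

/-!
# The Hilbert-Schmidt norm of `A`
-/

set_option autoImplicit false

open MeasureTheory

namespace Pool.Agent.TH253.FV.HS

open Pool.Agent.W716.FV
open Pool.Agent.W125.FV (AA_inner meas_G int_Gg integ)

theorem main (hKM : KappaMoments) (hGM : GaussMoments) (hPM : PMoments) (hGF : GoodFacts)
    (hXI : XIdent) : TH253.FV.HSBound := by
  intro n R u hR hu η
  obtain ⟨hprob, -, -, hk1, hk2, hk0, -, hvar, -⟩ := hPM n
  obtain ⟨x1, x2, x3, x4, x5⟩ := hXI n R u hR hu η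
  obtain ⟨g1, g2, g3, g4, g5, g6⟩ := hGF n R u hR hu
  obtain ⟨pnu, -, -, -, -, hk6⟩ := hKM
  obtain ⟨pgam, -, -, hgv, -⟩ := hGM n
  have := pnu
  have := pgam
  have hG := meas_G hGF hR hu η
  -- the weighted moment
  have hwt : ∀ a : E n, ∫ w, w.2 ^ 2 / (1 + w.2 ^ 2) * ((inner ℝ w.1 a : ℝ) * inner ℝ w.1 a)
      ∂(P n) = ‖a‖ ^ 2 / 6 := by
    intro a
    have h1 := integral_prod_mul (μ := gam n) (ν := nu)
      (fun x : E n => (inner ℝ x a : ℝ) * inner ℝ x a) (fun k : ℝ => k ^ 2 / (1 + k ^ 2))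
    rw [hk6, hgv a a, real_inner_self_eq_norm_sq] at h1
    have h2 : ∫ w, w.2 ^ 2 / (1 + w.2 ^ 2) * ((inner ℝ w.1 a : ℝ) * inner ℝ w.1 a) ∂(P n) =
        ∫ z : E n × ℝ, ((inner ℝ z.1 a : ℝ) * inner ℝ z.1 a) * (z.2 ^ 2 / (1 + z.2 ^ 2))
          ∂((gam n).prod nu) := by
      refine integral_congr_ae (Filter.Eventually.of_forall fun w => ?_)
      simp only
      ring
    rw [h2, h1]
    ring
  -- one basis vector
  have key : ∀ i : Fin n, ‖AA u η (EuclideanSpace.single i 1)‖ ^ 2 ≤
      1 / 6 * ∫ w, (1 + w.2 ^ 2) *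
        (inner ℝ (gr u (xi η w) - η) (EuclideanSpace.single i 1) : ℝ) ^ 2 ∂(P n) := by
    intro i
    set v : E n := EuclideanSpace.single i 1 with hv
    set a : E n := AA u η v with ha
    have h1 : ‖a‖ ^ 2 = ∫ w, w.2 ^ 1 * inner ℝ (gr u (xi η w)) v * inner ℝ w.1 a ∂(P n) := by
      rw [← real_inner_self_eq_norm_sq]
      simp only [pow_one]
      exact AA_inner hPM hGF hR hu η v a
    have h2 : ∫ w, w.2 * ((inner ℝ η v : ℝ) * inner ℝ w.1 a) ∂(P n) = 0 :=
      hk0 (fun x => (inner ℝ η v : ℝ) * inner ℝ x a)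
    have hi1 := int_Gg hPM hGF hR hu η v a 1 (by norm_num)
    have hi2 : Integrable (fun w : E n × ℝ => w.2 * ((inner ℝ η v : ℝ) * inner ℝ w.1 a))
        (P n) := by
      refine integ hPM ?_ 1 1 (by norm_num) (|(inner ℝ η v : ℝ)| * ‖a‖) fun w => ?_
      · exact (measurable_snd.mul ((measurable_fst.inner_const).const_mul _)).aestronglyMeasurable
      · have h3 : |(inner ℝ w.1 a : ℝ)| ≤ ‖w.1‖ * ‖a‖ := abs_real_inner_le_norm _ _
        rw [Real.norm_eq_abs, abs_mul, abs_mul, pow_one, pow_one]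
        calc |w.2| * (|(inner ℝ η v : ℝ)| * |(inner ℝ w.1 a : ℝ)|)
            ≤ |w.2| * (|(inner ℝ η v : ℝ)| * (‖w.1‖ * ‖a‖)) := by gcongr
          _ = |(inner ℝ η v : ℝ)| * ‖a‖ * (|w.2| * ‖w.1‖) := by ring
    have h3 : ‖a‖ ^ 2 = ∫ w, w.2 * inner ℝ (gr u (xi η w) - η) v * inner ℝ w.1 a ∂(P n) := by
      rw [h1, ← sub_zero (∫ w, w.2 ^ 1 * inner ℝ (gr u (xi η w)) v * inner ℝ w.1 a ∂(P n)), ← h2,
        ← integral_sub hi1 hi2]
      refine integral_congr_ae (Filter.Eventually.of_forall fun w => ?_)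
      simp only
      rw [inner_sub_left]
      ring
    have hY : Measurable (fun w : E n × ℝ => (inner ℝ (gr u (xi η w) - η) v : ℝ)) :=
      (hG.sub_const η).inner_const
    have hYb : ∀ w : E n × ℝ, |(inner ℝ (gr u (xi η w) - η) v : ℝ)| ≤ (R + ‖η‖) * ‖v‖ := by
      intro w
      refine (abs_real_inner_le_norm _ _).trans (mul_le_mul_of_nonneg_right ?_ (norm_nonneg _))
      exact (norm_sub_le _ _).trans (add_le_add (g1 _) le_rfl)
    have hY2 : Integrable (fun w : E n × ℝ =>
        (1 + w.2 ^ 2) * (inner ℝ (gr u (xi η w) - η) v : ℝ) ^ 2) (P n) := by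
      have j0 : Integrable (fun w : E n × ℝ => (inner ℝ (gr u (xi η w) - η) v : ℝ) ^ 2)
          (P n) := by
        refine integ hPM (hY.pow_const 2).aestronglyMeasurable 0 0 (by norm_num)
          (((R + ‖η‖) * ‖v‖) ^ 2) fun w => ?_
        rw [Real.norm_eq_abs, abs_pow, pow_zero, pow_zero, mul_one, mul_one]
        exact pow_le_pow_left₀ (abs_nonneg _) (hYb w) 2
      have j1 : Integrable (fun w : E n × ℝ =>
          w.2 ^ 2 * (inner ℝ (gr u (xi η w) - η) v : ℝ) ^ 2) (P n) := by
        refine integ hPM ((measurable_snd.pow_const 2).mul (hY.pow_const 2)).aestronglyMeasurable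
          2 0 (by norm_num) (((R + ‖η‖) * ‖v‖) ^ 2) fun w => ?_
        rw [Real.norm_eq_abs, abs_mul, abs_pow, abs_pow, pow_zero, mul_one, mul_comm]
        refine mul_le_mul_of_nonneg_right ?_ (by positivity)
        exact pow_le_pow_left₀ (abs_nonneg _) (hYb w) 2
      refine (j0.add j1).congr (Filter.Eventually.of_forall fun w => ?_)
      simp only [Pi.add_apply]
      ring
    have hg2 : Integrable (fun w : E n × ℝ =>
        w.2 ^ 2 / (1 + w.2 ^ 2) * ((inner ℝ w.1 a : ℝ) * inner ℝ w.1 a)) (P n) := by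
      refine integ hPM ?_ 0 2 (by norm_num) (‖a‖ ^ 2) fun w => ?_
      · refine Measurable.aestronglyMeasurable ?_
        refine Measurable.mul ?_ ((measurable_fst.inner_const).mul (measurable_fst.inner_const))
        exact (measurable_snd.pow_const 2).div ((measurable_snd.pow_const 2).const_add 1)
      · have h3 : |(inner ℝ w.1 a : ℝ)| ≤ ‖w.1‖ * ‖a‖ := abs_real_inner_le_norm _ _
        have h4 : |w.2 ^ 2 / (1 + w.2 ^ 2)| ≤ 1 := by
          rw [abs_of_nonneg (by positivity), div_le_one (by positivity)]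
          linarith
        rw [Real.norm_eq_abs, abs_mul, abs_mul, pow_zero]
        calc |w.2 ^ 2 / (1 + w.2 ^ 2)| * (|(inner ℝ w.1 a : ℝ)| * |(inner ℝ w.1 a : ℝ)|)
            ≤ 1 * ((‖w.1‖ * ‖a‖) * (‖w.1‖ * ‖a‖)) := by gcongr
          _ = ‖a‖ ^ 2 * (1 * ‖w.1‖ ^ 2) := by ring
    have h5 : ‖a‖ ^ 2 ≤ ∫ w, (1 / 12 * ((1 + w.2 ^ 2) *
        (inner ℝ (gr u (xi η w) - η) v : ℝ) ^ 2) +
        3 * (w.2 ^ 2 / (1 + w.2 ^ 2) * ((inner ℝ w.1 a : ℝ) * inner ℝ w.1 a))) ∂(P n) := by
      rw [h3]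
      have hi3 : Integrable (fun w : E n × ℝ =>
          w.2 * inner ℝ (gr u (xi η w) - η) v * inner ℝ w.1 a) (P n) := by
        refine (hi1.sub hi2).congr (Filter.Eventually.of_forall fun w => ?_)
        simp only [Pi.sub_apply]
        rw [inner_sub_left]
        ring
      refine integral_mono hi3 ((hY2.const_mul _).add (hg2.const_mul _)) fun w => ?_
      simp only
      generalize (inner ℝ (gr u (xi η w) - η) v : ℝ) = y
      generalize (inner ℝ w.1 a : ℝ) = g
      generalize w.2 = k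
      have hD : (0 : ℝ) < 1 + k ^ 2 := by positivity
      have e : 1 / 12 * ((1 + k ^ 2) * y ^ 2) + 3 * (k ^ 2 / (1 + k ^ 2) * (g * g)) - k * y * g =
          1 / 12 * ((1 + k ^ 2) * y - 6 * (k * g)) ^ 2 / (1 + k ^ 2) := by
        field_simp
        ring
      have e2 : 0 ≤ 1 / 12 * ((1 + k ^ 2) * y - 6 * (k * g)) ^ 2 / (1 + k ^ 2) := by positivity
      linarith
    rw [integral_add (hY2.const_mul _) (hg2.const_mul _), integral_const_mul,
      integral_const_mul, hwt a] at h5
    linarith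
  calc ∑ i, ‖AA u η (EuclideanSpace.single i 1)‖ ^ 2
      ≤ ∑ i : Fin n, 1 / 6 * ∫ w, (1 + w.2 ^ 2) *
        (inner ℝ (gr u (xi η w) - η) (EuclideanSpace.single i 1) : ℝ) ^ 2 ∂(P n) :=
        Finset.sum_le_sum fun i _ => key i
    _ ≤ 4 / 3 * SS R u η := by
      rw [← Finset.mul_sum, ← integral_finsetSum]
      · have h1 : ∫ w, ∑ i : Fin n, (1 + w.2 ^ 2) *
            (inner ℝ (gr u (xi η w) - η) (EuclideanSpace.single i 1) : ℝ) ^ 2 ∂(P n) ≤
            ∫ w, (1 + w.2 ^ 2) * XX R u η w ∂(P n) := by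
          refine integral_mono_of_nonneg (Filter.Eventually.of_forall fun w =>
            Finset.sum_nonneg fun i _ => mul_nonneg (by positivity) (sq_nonneg _)) x2
            (Filter.Eventually.of_forall fun w => ?_)
          have h2 : ∑ i : Fin n,
              (inner ℝ (gr u (xi η w) - η) (EuclideanSpace.single i 1) : ℝ) ^ 2 =
              ‖gr u (xi η w) - η‖ ^ 2 := by
            rw [EuclideanSpace.real_norm_sq_eq]
            refine Finset.sum_congr rfl fun i _ => ?_
            rw [EuclideanSpace.inner_single_right]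
            simp
          simp only
          rw [← Finset.mul_sum, h2]
          exact mul_le_mul_of_nonneg_left (x1 w) (by positivity)
        rw [x5] at h1
        linarith
      · intro i _
        have hb : ∀ w : E n × ℝ,
            |(inner ℝ (gr u (xi η w) - η) (EuclideanSpace.single i 1) : ℝ)| ≤ R + ‖η‖ := by
          intro w
          refine (abs_real_inner_le_norm _ _).trans ?_
          rw [PiLp.norm_single, norm_one, mul_one]
          exact (norm_sub_le _ _).trans (add_le_add (g1 _) le_rfl)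
        have hm : Measurable (fun w : E n × ℝ =>
            (inner ℝ (gr u (xi η w) - η) (EuclideanSpace.single i 1) : ℝ)) :=
          (hG.sub_const η).inner_const
        have j0 : Integrable (fun w : E n × ℝ =>
            (inner ℝ (gr u (xi η w) - η) (EuclideanSpace.single i 1) : ℝ) ^ 2) (P n) := by
          refine integ hPM (hm.pow_const 2).aestronglyMeasurable 0 0
            (by norm_num) ((R + ‖η‖) ^ 2) fun w => ?_
          rw [Real.norm_eq_abs, abs_pow, pow_zero, pow_zero, mul_one, mul_one]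
          exact pow_le_pow_left₀ (abs_nonneg _) (hb w) 2
        have j1 : Integrable (fun w : E n × ℝ => w.2 ^ 2 *
            (inner ℝ (gr u (xi η w) - η) (EuclideanSpace.single i 1) : ℝ) ^ 2) (P n) := by
          refine integ hPM ((measurable_snd.pow_const 2).mul (hm.pow_const 2)).aestronglyMeasurable
            2 0 (by norm_num) ((R + ‖η‖) ^ 2) fun w => ?_
          rw [Real.norm_eq_abs, abs_mul, abs_pow, abs_pow, pow_zero, mul_one, mul_comm]
          refine mul_le_mul_of_nonneg_right ?_ (by positivity)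
          exact pow_le_pow_left₀ (abs_nonneg _) (hb w) 2
        refine (j0.add j1).congr (Filter.Eventually.of_forall fun w => ?_)
        simp only [Pi.add_apply]
        ring

end Pool.Agent.TH253.FV.HS
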