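import Pool.Agent.TH253.FV.Stm
import Pool.Agent.W925.FV.IN

/-! # Injectivity of `T` on the set `S ≤ 17/25` -/

set_option autoImplicit false

namespace Pool.Agent.TH253.FV.IN

open MeasureTheory
open Pool.Agent.W716.FV (E gam nu P xi Good TT SS gr AA EX XX KappaMoments PMoments GoodFacts XIdent)
open Pool.Agent.W925.FV.IN (YY YY_nonneg meas_xi)

theorem main (hKM : KappaMoments) (hPM : PMoments) (hGF : GoodFacts) (hXI : XIdent)
    (hO2 : Overlap2) (hKN : KappaNum2) : Inject2 := by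
  intro n R u hR hu η₁ η₂ hS₁ hS₂ hT
  obtain ⟨pnu, -, -, hk2v, -, -⟩ := hKM
  obtain ⟨pP, hPint, -⟩ := hPM n
  obtain ⟨hV, -, hVm, -, -, -⟩ := hGF n R u hR hu
  have := pnu
  have := pP
  have : SFinite (gam n) := by
    unfold gam
    infer_instance
  set V : E n → E n := gr u with hVdef
  -- integrability on the product
  have hf : ∀ η : E n, Integrable (fun w : E n × ℝ => (1 + w.2 ^ 2) * ‖V (xi η w) - η‖ ^ 2)
      (P n) := by
    intro η
    obtain ⟨h1, h2, -⟩ := hXI n R u hR hu η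
    refine h2.mono' ?_ (Filter.Eventually.of_forall fun w => ?_)
    · refine Measurable.aestronglyMeasurable ?_
      have h3 : Measurable (fun w : E n × ℝ => V (xi η w)) := hVm.comp (meas_xi η)
      exact Measurable.mul (by fun_prop) (((h3.sub_const η).norm).pow_const 2)
    · rw [Real.norm_of_nonneg (by positivity)]
      exact mul_le_mul_of_nonneg_left (h1 w) (by positivity)
  have hJi : ∀ η : E n, Integrable (fun k : ℝ => (1 + k ^ 2) * YY V η k) nu := by
    intro η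
    have h1 := (hf η).integral_prod_right
    refine h1.congr (Filter.Eventually.of_forall fun k => ?_)
    change ∫ x, (1 + k ^ 2) * ‖V (xi η (x, k)) - η‖ ^ 2 ∂(gam n) = _
    rw [integral_const_mul]
    rfl
  have hJ : ∀ η : E n, ∫ k, (1 + k ^ 2) * YY V η k ∂nu ≤ 8 * SS R u η := by
    intro η
    obtain ⟨h1, h2, -, -, h5⟩ := hXI n R u hR hu η
    rw [← h5]
    have h6 : ∫ w, (1 + w.2 ^ 2) * ‖V (xi η w) - η‖ ^ 2 ∂(P n) =
        ∫ k, (1 + k ^ 2) * YY V η k ∂nu := by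
      unfold P
      rw [integral_prod_symm _ (hf η)]
      refine integral_congr_ae (Filter.Eventually.of_forall fun k => ?_)
      change ∫ x, (1 + k ^ 2) * ‖V (xi η (x, k)) - η‖ ^ 2 ∂(gam n) = _
      rw [integral_const_mul]
      rfl
    rw [← h6]
    exact integral_mono (hf η) h2 fun w => mul_le_mul_of_nonneg_left (h1 w) (by positivity)
  have hJ1 : ∫ k, (1 + k ^ 2) * YY V η₁ k ∂nu ≤ 136 / 25 := (hJ η₁).trans (by linarith)
  have hJ2 : ∫ k, (1 + k ^ 2) * YY V η₂ k ∂nu ≤ 136 / 25 := (hJ η₂).trans (by linarith)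
  set a : ℝ := ‖η₂ - η₁‖ with ha
  have ha0 : 0 ≤ a := norm_nonneg _
  have hc : ∀ k : ℝ, ‖k • η₂ - k • η₁‖ = |k| * a := by
    intro k
    rw [← smul_sub, norm_smul, Real.norm_eq_abs]
  by_contra hne
  have hapos : 0 < a := by
    rw [ha, norm_pos_iff, sub_ne_zero]
    exact fun h => hne h.symm
  have hVi : ∀ η : E n, Integrable (fun w : E n × ℝ => V (xi η w)) (P n) := by
    intro η
    refine Integrable.of_bound (hVm.comp (meas_xi η)).aestronglyMeasurable R
      (Filter.Eventually.of_forall fun w => hV _)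
  have hW : ∀ η : E n, ∫ w, V (xi η w) ∂(P n) = ∫ k, ∫ x, V (x + k • η) ∂(gam n) ∂nu := by
    intro η
    have h1 := hVi η
    unfold P at h1 ⊢
    rw [integral_prod_symm _ h1]
    rfl
  have hWi : ∀ η : E n, Integrable (fun k : ℝ => ∫ x, V (x + k • η) ∂(gam n)) nu := by
    intro η
    exact (hVi η).integral_prod_right
  have hdiff : η₂ - η₁ = ∫ k, ((∫ x, V (x + k • η₂) ∂(gam n)) - ∫ x, V (x + k • η₁) ∂(gam n))
      ∂nu := by
    rw [integral_sub (hWi η₂) (hWi η₁), ← hW, ← hW, (hXI n R u hR hu η₂).2.2.1,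
      (hXI n R u hR hu η₁).2.2.1, hT]
    abel
  set p : ℝ := a ^ 2 / 4 with hp
  have hp0 : 0 < p := by positivity
  obtain ⟨l, hl0, hl⟩ := hKN p hp0
  -- the overlap
  set ω : ℝ → ℝ := fun k => Real.exp (-(p * k ^ 2)) with hω
  have hω0 : ∀ k, 0 < ω k := fun k => Real.exp_pos _
  have hω1 : ∀ k, ω k ≤ 1 := fun k => by
    simp only [hω]
    rw [Real.exp_le_one_iff]
    have := mul_nonneg hp0.le (sq_nonneg k)
    linarith
  have hωc : Continuous ω := by
    simp only [hω]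
    fun_prop
  have hωi : Integrable ω nu := by
    refine Integrable.of_bound hωc.aestronglyMeasurable 1 (Filter.Eventually.of_forall fun k => ?_)
    rw [Real.norm_of_nonneg (hω0 k).le]
    exact hω1 k
  have hGi : Integrable (fun k => (1 - ω k) / (1 + k ^ 2)) nu := by
    refine Integrable.of_bound ?_ 1 (Filter.Eventually.of_forall fun k => ?_)
    · exact (Continuous.div (by fun_prop) (by fun_prop) fun k => by positivity).aestronglyMeasurable
    · rw [Real.norm_of_nonneg (div_nonneg (by linarith [hω1 k]) (by positivity)),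
        div_le_one (by positivity)]
      nlinarith [hω0 k, sq_nonneg k]
  have hk2 : Integrable (fun k : ℝ => k ^ 2) nu := by
    by_contra hni
    rw [integral_undef hni] at hk2v
    norm_num at hk2v
  have hHi : Integrable (fun k => (1 + k ^ 2) * ω k) nu := by
    refine ((integrable_const (1 : ℝ)).add hk2).mono' ?_ (Filter.Eventually.of_forall fun k => ?_)
    · exact (Continuous.aestronglyMeasurable (by fun_prop))
    · rw [Real.norm_of_nonneg (mul_nonneg (by positivity) (hω0 k).le)]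
      simp only [Pi.add_apply]
      exact mul_le_of_le_one_right (by positivity) (hω1 k)
  have hexp : ∀ k : ℝ, Real.exp (-(|k| * a) ^ 2 / 4) = ω k := by
    intro k
    simp only [hω, hp]
    congr 1
    rw [mul_pow, sq_abs]
    ring
  -- the difference of the integrals
  set D : ℝ → ℝ := fun k =>
    ‖(∫ x, V (x + k • η₂) ∂(gam n)) - ∫ x, V (x + k • η₁) ∂(gam n)‖ with hDdef
  have hDi : Integrable D nu := ((hWi η₂).sub (hWi η₁)).norm
  have haD : a ≤ ∫ k, D k ∂nu := by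
    calc a = ‖∫ k, ((∫ x, V (x + k • η₂) ∂(gam n)) - ∫ x, V (x + k • η₁) ∂(gam n)) ∂nu‖ := by
          rw [← hdiff]
      _ ≤ _ := norm_integral_le_integral_norm _
  set W : ℝ := ∫ k, ω k ∂nu with hWdef
  set G : ℝ := ∫ k, (1 - ω k) / (1 + k ^ 2) ∂nu with hG
  set H : ℝ := ∫ k, (1 + k ^ 2) * ω k ∂nu with hH
  have hl' : 136 / 25 < p * (H + 2 * l * W - l ^ 2 * G) := hl
  have hal : 0 ≤ a * l := mul_nonneg ha0 hl0
  -- the pointwise inequality
  have hpt : ∀ k : ℝ, a * l * D k ≤ ((1 + k ^ 2) * YY V η₁ k + (1 + k ^ 2) * YY V η₂ k) +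
      (a ^ 2 * l - a ^ 2 * l * ω k - a ^ 2 / 2 * ((1 + k ^ 2) * ω k) +
        a ^ 2 * l ^ 2 / 2 * ((1 - ω k) / (1 + k ^ 2))) := by
    intro k
    have hd : (0 : ℝ) < 1 + k ^ 2 := by positivity
    have h3 := hO2 n V R hVm hV (k • η₁) (k • η₂) η₁ η₂ (a + a * l / (1 + k ^ 2))
      (add_nonneg ha0 (div_nonneg hal hd.le))
    rw [hc k, hexp k] at h3
    have h4 : (a + a * l / (1 + k ^ 2) - a) * D k ≤ YY V η₁ k + YY V η₂ k - a ^ 2 / 2 +
        (a + a * l / (1 + k ^ 2)) ^ 2 / 2 * (1 - ω k) := h3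
    have h5 := mul_le_mul_of_nonneg_left h4 hd.le
    have e1 : (1 + k ^ 2) * ((a + a * l / (1 + k ^ 2) - a) * D k) = a * l * D k := by
      field_simp
      ring
    have e2 : (1 + k ^ 2) * (YY V η₁ k + YY V η₂ k - a ^ 2 / 2 +
        (a + a * l / (1 + k ^ 2)) ^ 2 / 2 * (1 - ω k)) =
        ((1 + k ^ 2) * YY V η₁ k + (1 + k ^ 2) * YY V η₂ k) +
      (a ^ 2 * l - a ^ 2 * l * ω k - a ^ 2 / 2 * ((1 + k ^ 2) * ω k) +
        a ^ 2 * l ^ 2 / 2 * ((1 - ω k) / (1 + k ^ 2))) := by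
      field_simp
      ring
    rw [e1, e2] at h5
    exact h5
  have hYi : Integrable (fun k : ℝ => (1 + k ^ 2) * YY V η₁ k + (1 + k ^ 2) * YY V η₂ k) nu :=
    (hJi η₁).add (hJi η₂)
  have r1 : Integrable (fun k : ℝ => a ^ 2 * l - a ^ 2 * l * ω k) nu :=
    (integrable_const _).sub (hωi.const_mul _)
  have r2 : Integrable (fun k : ℝ => a ^ 2 * l - a ^ 2 * l * ω k -
      a ^ 2 / 2 * ((1 + k ^ 2) * ω k)) nu := r1.sub (hHi.const_mul _)
  have r3 : Integrable (fun k : ℝ => a ^ 2 * l - a ^ 2 * l * ω k -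
      a ^ 2 / 2 * ((1 + k ^ 2) * ω k) + a ^ 2 * l ^ 2 / 2 * ((1 - ω k) / (1 + k ^ 2))) nu :=
    r2.add (hGi.const_mul _)
  have h6 := integral_mono (hDi.const_mul (a * l)) (hYi.add r3) hpt
  have h7 : ∫ k, (((1 + k ^ 2) * YY V η₁ k + (1 + k ^ 2) * YY V η₂ k) +
      (a ^ 2 * l - a ^ 2 * l * ω k - a ^ 2 / 2 * ((1 + k ^ 2) * ω k) +
        a ^ 2 * l ^ 2 / 2 * ((1 - ω k) / (1 + k ^ 2)))) ∂nu =
      ((∫ k, (1 + k ^ 2) * YY V η₁ k ∂nu) + ∫ k, (1 + k ^ 2) * YY V η₂ k ∂nu) +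
      (a ^ 2 * l - a ^ 2 * l * W - a ^ 2 / 2 * H + a ^ 2 * l ^ 2 / 2 * G) := by
    rw [integral_add hYi r3, integral_add (hJi η₁) (hJi η₂), integral_add r2 (hGi.const_mul _),
      integral_sub r1 (hHi.const_mul _), integral_sub (integrable_const _) (hωi.const_mul _)]
    simp only [integral_const_mul, integral_const, probReal_univ, one_smul]
    rfl
  rw [integral_const_mul] at h6
  have h8 : a * l * a ≤ a * l * ∫ k, D k ∂nu := mul_le_mul_of_nonneg_left haD hal
  have h9 : a * l * ∫ k, D k ∂nu ≤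
      ((∫ k, (1 + k ^ 2) * YY V η₁ k ∂nu) + ∫ k, (1 + k ^ 2) * YY V η₂ k ∂nu) +
      (a ^ 2 * l - a ^ 2 * l * W - a ^ 2 / 2 * H + a ^ 2 * l ^ 2 / 2 * G) := by
    rw [← h7]
    exact h6
  rw [hp] at hl'
  nlinarith

end Pool.Agent.TH253.FV.IN
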