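import Pool.Agent.TH253.FV.KNA

/-!
# The numerical inequality for the injectivity
-/

set_option autoImplicit false

open MeasureTheory Filter Topology Set

namespace Pool.Agent.TH253.FV.KNB

open Pool.Agent.W716.FV (kd nu KappaMoments KappaStein)
open Pool.Agent.W366.FVKN (kd_nonneg kd_cont int_nu)
open Pool.Agent.TH253.FV.KNA

/-- `E[exp(-q κ²)/(1+κ²)]` -/
noncomputable def NN (q : ℝ) : ℝ := ∫ k, Real.exp (-(q * k ^ 2)) / (1 + k ^ 2) ∂nu

/-- `E[κ² exp(-q κ²)/(1+κ²)]` -/
noncomputable def MM (q : ℝ) : ℝ := ∫ k, k ^ 2 * Real.exp (-(q * k ^ 2)) / (1 + k ^ 2) ∂nu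

theorem cont1 (q : ℝ) : Continuous fun k : ℝ => Real.exp (-(q * k ^ 2)) / (1 + k ^ 2) :=
  Continuous.div (by fun_prop) (by fun_prop) fun k => by positivity

theorem cont2 (q : ℝ) : Continuous fun k : ℝ => k ^ 2 * Real.exp (-(q * k ^ 2)) / (1 + k ^ 2) :=
  Continuous.div (by fun_prop) (by fun_prop) fun k => by positivity

theorem exp_le {q : ℝ} (hq : 0 ≤ q) (k : ℝ) : Real.exp (-(q * k ^ 2)) ≤ 1 := by
  rw [Real.exp_le_one_iff]
  have := mul_nonneg hq (sq_nonneg k)
  linarith

theorem b1 {q : ℝ} (hq : 0 ≤ q) (k : ℝ) : ‖Real.exp (-(q * k ^ 2)) / (1 + k ^ 2)‖ ≤ 1 := by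
  rw [Real.norm_of_nonneg (by positivity), div_le_one (by positivity)]
  have := exp_le hq k
  nlinarith [sq_nonneg k]

theorem b2 {q : ℝ} (hq : 0 ≤ q) (k : ℝ) :
    ‖k ^ 2 * Real.exp (-(q * k ^ 2)) / (1 + k ^ 2)‖ ≤ 1 := by
  rw [Real.norm_of_nonneg (by positivity), div_le_one (by positivity)]
  have := exp_le hq k
  nlinarith [sq_nonneg k, mul_le_mul_of_nonneg_left this (sq_nonneg k)]

variable (hKM : KappaMoments)

include hKM in
theorem i1 {q : ℝ} (hq : 0 ≤ q) :
    Integrable (fun k : ℝ => Real.exp (-(q * k ^ 2)) / (1 + k ^ 2)) nu := by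
  have := hKM.1
  exact Integrable.of_bound (cont1 q).aestronglyMeasurable 1 (Eventually.of_forall (b1 hq))

include hKM in
theorem i2 {q : ℝ} (hq : 0 ≤ q) :
    Integrable (fun k : ℝ => k ^ 2 * Real.exp (-(q * k ^ 2)) / (1 + k ^ 2)) nu := by
  have := hKM.1
  exact Integrable.of_bound (cont2 q).aestronglyMeasurable 1 (Eventually.of_forall (b2 hq))

include hKM in
theorem i3 {q : ℝ} (hq : 0 ≤ q) : Integrable (fun k : ℝ => Real.exp (-(q * k ^ 2))) nu := by
  have := hKM.1
  refine Integrable.of_bound (Continuous.aestronglyMeasurable (by fun_prop)) 1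
    (Eventually.of_forall fun k => ?_)
  rw [Real.norm_of_nonneg (Real.exp_pos _).le]
  exact exp_le hq k

include hKM in
theorem i4 {q : ℝ} (hq : 0 ≤ q) :
    Integrable (fun k : ℝ => k ^ 2 * Real.exp (-(q * k ^ 2))) nu := by
  have hk2 : Integrable (fun k : ℝ => k ^ 2) nu := by
    by_contra hni
    have h := hKM.2.2.2.1
    rw [integral_undef hni] at h
    norm_num at h
  refine hk2.mono' (Continuous.aestronglyMeasurable (by fun_prop)) (Eventually.of_forall fun k => ?_)
  rw [Real.norm_of_nonneg (by positivity)]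
  have := mul_le_mul_of_nonneg_left (exp_le hq k) (sq_nonneg k)
  linarith

/-- the function in the Stein identity -/
noncomputable def FF (q k : ℝ) : ℝ := k * Real.exp (-(q * k ^ 2)) / (1 + k ^ 2)

theorem FF_deriv (q k : ℝ) : HasDerivAt (FF q)
    (Real.exp (-(q * k ^ 2)) * (1 - 2 * q * k ^ 2) / (1 + k ^ 2) -
      2 * k ^ 2 * Real.exp (-(q * k ^ 2)) / (1 + k ^ 2) ^ 2) k := by
  have h1 : HasDerivAt (fun k : ℝ => -(q * k ^ 2)) (-(q * (2 * k))) k := by
    have h0 : HasDerivAt (fun k : ℝ => q * k ^ 2) (q * (2 * k)) k := by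
      have := (hasDerivAt_pow 2 k).const_mul q
      simpa using this
    exact h0.neg
  have h2 : HasDerivAt (fun k : ℝ => 1 + k ^ 2) (2 * k) k := by
    have := (hasDerivAt_pow 2 k).const_add 1
    simpa using this
  have h3 := ((hasDerivAt_id k).mul h1.exp).div h2 (by positivity)
  refine h3.congr_deriv ?_
  have : (1 + k ^ 2 : ℝ) ≠ 0 := by positivity
  simp only [id, Pi.mul_apply]
  field_simp
  ring

theorem FF_lip {q : ℝ} (hq : 0 ≤ q) (x y : ℝ) : |FF q x - FF q y| ≤ (3 + 2 * q) * |x - y| := by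
  have h := Convex.norm_image_sub_le_of_norm_hasDerivWithin_le (f := FF q) (s := Set.univ)
    (f' := fun k => Real.exp (-(q * k ^ 2)) * (1 - 2 * q * k ^ 2) / (1 + k ^ 2) -
      2 * k ^ 2 * Real.exp (-(q * k ^ 2)) / (1 + k ^ 2) ^ 2) (C := 3 + 2 * q) (x := y) (y := x)
    (fun k _ => (FF_deriv q k).hasDerivWithinAt) (fun k _ => ?_) convex_univ (mem_univ _)
    (mem_univ _)
  · simpa [Real.norm_eq_abs] using h
  · have e0 := Real.exp_pos (-(q * k ^ 2))
    have e1 := exp_le hq k
    have hD : (1 : ℝ) ≤ 1 + k ^ 2 := by nlinarith [sq_nonneg k]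
    refine (norm_sub_le _ _).trans ?_
    have h1 : ‖Real.exp (-(q * k ^ 2)) * (1 - 2 * q * k ^ 2) / (1 + k ^ 2)‖ ≤ 1 + 2 * q := by
      rw [norm_div, norm_mul, Real.norm_of_nonneg e0.le,
        Real.norm_of_nonneg (by positivity : (0 : ℝ) ≤ 1 + k ^ 2), div_le_iff₀ (by positivity)]
      have h2 : ‖1 - 2 * q * k ^ 2‖ ≤ 1 + 2 * q * k ^ 2 := by
        refine (norm_sub_le _ _).trans ?_
        rw [norm_one, Real.norm_of_nonneg (by positivity)]
      calc Real.exp (-(q * k ^ 2)) * ‖1 - 2 * q * k ^ 2‖ ≤ 1 * (1 + 2 * q * k ^ 2) := by gcongr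
        _ ≤ (1 + 2 * q) * (1 + k ^ 2) := by nlinarith [sq_nonneg k, mul_nonneg hq (sq_nonneg k)]
    have h2 : ‖2 * k ^ 2 * Real.exp (-(q * k ^ 2)) / (1 + k ^ 2) ^ 2‖ ≤ 2 := by
      rw [Real.norm_of_nonneg (by positivity), div_le_iff₀ (by positivity)]
      calc 2 * k ^ 2 * Real.exp (-(q * k ^ 2)) ≤ 2 * k ^ 2 * 1 := by gcongr
        _ ≤ 2 * (1 + k ^ 2) ^ 2 := by nlinarith [sq_nonneg k, sq_nonneg (k ^ 2)]
    linarith

include hKM in
/-- consequence of the Stein identity -/
theorem stein (hKS : KappaStein) {q : ℝ} (hq : 0 ≤ q) : (5 + 2 * q) * MM q ≤ NN q := by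
  have h1 := hKS (FF q) (3 + 2 * q) (FF_lip hq)
  have h2 : ∫ k, k * FF q k ∂nu = MM q := by
    unfold MM FF
    refine integral_congr_ae (Eventually.of_forall fun k => ?_)
    simp only
    ring
  have h3 : ∫ k, (1 + k ^ 2) * deriv (FF q) k ∂nu =
      ∫ k, (Real.exp (-(q * k ^ 2)) - 2 * q * (k ^ 2 * Real.exp (-(q * k ^ 2))) -
        2 * (k ^ 2 * Real.exp (-(q * k ^ 2)) / (1 + k ^ 2))) ∂nu := by
    refine integral_congr_ae (Eventually.of_forall fun k => ?_)
    simp only
    rw [(FF_deriv q k).deriv]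
    have : (1 + k ^ 2 : ℝ) ≠ 0 := by positivity
    field_simp
  have j1 := i3 hKM hq
  have j2 := i4 hKM hq
  have j3 := i2 hKM hq
  have j0 := i1 hKM hq
  have j4 : Integrable (fun k : ℝ => Real.exp (-(q * k ^ 2)) -
      2 * q * (k ^ 2 * Real.exp (-(q * k ^ 2)))) nu := j1.sub (j2.const_mul (2 * q))
  have h4 : ∫ k, Real.exp (-(q * k ^ 2)) ∂nu = NN q + MM q := by
    unfold NN MM
    rw [← integral_add j0 j3]
    refine integral_congr_ae (Eventually.of_forall fun k => ?_)
    simp only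
    have : (1 + k ^ 2 : ℝ) ≠ 0 := by positivity
    field_simp
  have h5 : MM q ≤ ∫ k, k ^ 2 * Real.exp (-(q * k ^ 2)) ∂nu := by
    unfold MM
    refine integral_mono j3 j2 fun k => ?_
    exact div_le_self (by positivity) (by nlinarith [sq_nonneg k])
  rw [h2, h3, integral_sub j4 (j3.const_mul 2), integral_sub j1 (j2.const_mul (2 * q)),
    integral_const_mul, integral_const_mul, h4] at h1
  have h6 : ∫ k, k ^ 2 * Real.exp (-(q * k ^ 2)) / (1 + k ^ 2) ∂nu = MM q := rfl
  rw [h6] at h1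
  have h7 := mul_le_mul_of_nonneg_left h5 (by positivity : 0 ≤ 2 * q)
  linarith

include hKM in
theorem NN_deriv {q : ℝ} (hq : 0 < q) : HasDerivAt NN (-MM q) q := by
  have := hKM.1
  have h := hasDerivAt_integral_of_dominated_loc_of_deriv_le (μ := nu) (x₀ := q)
    (s := Metric.ball q q) (bound := fun _ : ℝ => (1 : ℝ))
    (F := fun p k : ℝ => Real.exp (-(p * k ^ 2)) / (1 + k ^ 2))
    (F' := fun p k : ℝ => -(k ^ 2 * Real.exp (-(p * k ^ 2)) / (1 + k ^ 2)))
    (Metric.ball_mem_nhds q hq)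
    (Eventually.of_forall fun p => (cont1 p).aestronglyMeasurable) (i1 hKM hq.le)
    (cont2 q).neg.aestronglyMeasurable
    (Eventually.of_forall fun k p hp => ?_) (integrable_const 1)
    (Eventually.of_forall fun k p _ => ?_)
  · have h2 := h.2
    rw [integral_neg] at h2
    exact h2
  · rw [norm_neg]
    refine b2 ?_ k
    rw [Metric.mem_ball, Real.dist_eq] at hp
    linarith [(abs_lt.1 hp).1]
  · have h1 : HasDerivAt (fun p : ℝ => -(p * k ^ 2)) (-(1 * k ^ 2)) p :=
      ((hasDerivAt_id p).mul_const (k ^ 2)).neg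
    have h2 := h1.exp.div_const (1 + k ^ 2)
    refine h2.congr_deriv ?_
    ring

include hKM in
theorem NN_cont : ContinuousOn NN (Set.Ici 0) := by
  have := hKM.1
  refine continuousOn_of_dominated (bound := fun _ : ℝ => (1 : ℝ))
    (fun p _ => (cont1 p).aestronglyMeasurable) (fun p hp => Eventually.of_forall (b1 hp))
    (integrable_const 1) (Eventually.of_forall fun k => ?_)
  have : Continuous fun p : ℝ => Real.exp (-(p * k ^ 2)) / (1 + k ^ 2) := by fun_prop
  exact this.continuousOn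

include hKM in
theorem NN_zero : NN 0 = 5 / 6 := by
  have := hKM.1
  have h6 := hKM.2.2.2.2.2
  have hk6i : Integrable (fun k : ℝ => k ^ 2 / (1 + k ^ 2)) nu := by
    by_contra hni
    rw [integral_undef hni] at h6
    norm_num at h6
  have h1 : NN 0 = ∫ k : ℝ, (1 - k ^ 2 / (1 + k ^ 2)) ∂nu := by
    unfold NN
    refine integral_congr_ae (Eventually.of_forall fun k => ?_)
    simp only
    have : (1 + k ^ 2 : ℝ) ≠ 0 := by positivity
    rw [zero_mul, neg_zero, Real.exp_zero]
    field_simp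
    ring
  rw [h1, integral_sub (integrable_const 1) hk6i, h6]
  simp
  norm_num

theorem NN_nonneg (q : ℝ) : 0 ≤ NN q := integral_nonneg fun k => by positivity

include hKM in
/-- the lower bound for `N` -/
theorem NN_lower (hKS : KappaStein) {q : ℝ} (hq : 0 ≤ q) :
    (5 / 6) ^ 2 * 5 ≤ NN q ^ 2 * (5 + 2 * q) := by
  have hmono : MonotoneOn (fun p => NN p ^ 2 * (5 + 2 * p)) (Set.Ici 0) := by
    refine monotoneOn_of_deriv_nonneg (convex_Ici 0) ?_ ?_ ?_
    · exact ((NN_cont hKM).pow 2).mul (by fun_prop)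
    · intro p hp
      rw [interior_Ici] at hp
      have h := NN_deriv hKM (Set.mem_Ioi.1 hp)
      exact ((h.differentiableAt.pow 2).mul (by fun_prop)).differentiableWithinAt
    · intro p hp
      rw [interior_Ici] at hp
      have hp' : 0 < p := hp
      have h := NN_deriv hKM hp'
      have h2 : HasDerivAt (fun p : ℝ => 5 + 2 * p) 2 p := by
        have := ((hasDerivAt_id p).const_mul 2).const_add 5
        simpa using this
      have h3 := (h.pow 2).mul h2
      have h4 : deriv (fun p => NN p ^ 2 * (5 + 2 * p)) p =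
          2 * NN p * (NN p - (5 + 2 * p) * MM p) := by
        refine (HasDerivAt.congr_deriv h3 ?_).deriv
        simp
        ring
      rw [h4]
      have h5 := stein hKM hKS hp'.le
      exact mul_nonneg (mul_nonneg (by norm_num) (NN_nonneg p)) (by linarith)
  have h := hmono (Set.mem_Ici.2 le_rfl) (Set.mem_Ici.2 hq) hq
  simp only [NN_zero hKM] at h
  linarith

/-- `E[exp(-q κ²)]` -/
noncomputable def WW (q : ℝ) : ℝ := ∫ k, Real.exp (-(q * k ^ 2)) ∂nu

/-- `E[κ² exp(-q κ²)]` -/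
noncomputable def LL (q : ℝ) : ℝ := ∫ k, k ^ 2 * Real.exp (-(q * k ^ 2)) ∂nu

include hKM in
theorem i5 {q : ℝ} (hq : 0 ≤ q) :
    Integrable (fun k : ℝ => k ^ 4 * Real.exp (-(q * k ^ 2))) nu := by
  refine hKM.2.1.mono' (Continuous.aestronglyMeasurable (by fun_prop))
    (Eventually.of_forall fun k => ?_)
  rw [Real.norm_of_nonneg (by positivity)]
  have := mul_le_mul_of_nonneg_left (exp_le hq k) (by positivity : (0 : ℝ) ≤ k ^ 4)
  linarith

theorem F2_deriv (q k : ℝ) : HasDerivAt (fun k : ℝ => k * Real.exp (-(q * k ^ 2)))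
    ((1 - 2 * q * k ^ 2) * Real.exp (-(q * k ^ 2))) k := by
  have h1 : HasDerivAt (fun k : ℝ => -(q * k ^ 2)) (-(q * (2 * k))) k := by
    have h0 : HasDerivAt (fun k : ℝ => q * k ^ 2) (q * (2 * k)) k := by
      have := (hasDerivAt_pow 2 k).const_mul q
      simpa using this
    exact h0.neg
  refine ((hasDerivAt_id k).mul h1.exp).congr_deriv ?_
  simp only [id]
  ring

theorem F2_lip {q : ℝ} (hq : 0 ≤ q) (x y : ℝ) :
    |x * Real.exp (-(q * x ^ 2)) - y * Real.exp (-(q * y ^ 2))| ≤ 3 * |x - y| := by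
  have h := Convex.norm_image_sub_le_of_norm_hasDerivWithin_le
    (f := fun k : ℝ => k * Real.exp (-(q * k ^ 2))) (s := Set.univ)
    (f' := fun k => (1 - 2 * q * k ^ 2) * Real.exp (-(q * k ^ 2))) (C := 3) (x := y) (y := x)
    (fun k _ => (F2_deriv q k).hasDerivWithinAt) (fun k _ => ?_) convex_univ (mem_univ _)
    (mem_univ _)
  · simpa [Real.norm_eq_abs] using h
  · have e0 := Real.exp_pos (-(q * k ^ 2))
    have e1 := exp_le hq k
    have e2 : q * k ^ 2 * Real.exp (-(q * k ^ 2)) ≤ 1 := by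
      have h2 := Real.add_one_le_exp (q * k ^ 2)
      have h3 : Real.exp (q * k ^ 2) * Real.exp (-(q * k ^ 2)) = 1 := by
        rw [← Real.exp_add, add_neg_cancel, Real.exp_zero]
      nlinarith
    have e3 : 0 ≤ q * k ^ 2 := by positivity
    rw [Real.norm_eq_abs, abs_le]
    constructor
    · nlinarith
    · nlinarith [mul_nonneg e3 e0.le]

include hKM in
/-- consequence of the Stein identity -/
theorem stein2 (hKS : KappaStein) {q : ℝ} (hq : 0 ≤ q) : (3 + 2 * q) * LL q ≤ WW q := by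
  have h1 := hKS (fun k => k * Real.exp (-(q * k ^ 2))) 3 (F2_lip hq)
  have h2 : ∫ k, k * (k * Real.exp (-(q * k ^ 2))) ∂nu = LL q := by
    unfold LL
    refine integral_congr_ae (Eventually.of_forall fun k => ?_)
    simp only
    ring
  have j1 := i3 hKM hq
  have j2 := i4 hKM hq
  have j4 := i5 hKM hq
  have h3 : ∫ k, (1 + k ^ 2) * deriv (fun k : ℝ => k * Real.exp (-(q * k ^ 2))) k ∂nu =
      ∫ k, ((Real.exp (-(q * k ^ 2)) + (1 - 2 * q) * (k ^ 2 * Real.exp (-(q * k ^ 2)))) -
        2 * q * (k ^ 4 * Real.exp (-(q * k ^ 2)))) ∂nu := by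
    refine integral_congr_ae (Eventually.of_forall fun k => ?_)
    simp only
    rw [(F2_deriv q k).deriv]
    ring
  have j5 : Integrable (fun k : ℝ => Real.exp (-(q * k ^ 2)) +
      (1 - 2 * q) * (k ^ 2 * Real.exp (-(q * k ^ 2)))) nu := j1.add (j2.const_mul _)
  have h4 : 0 ≤ ∫ k, k ^ 4 * Real.exp (-(q * k ^ 2)) ∂nu := integral_nonneg fun k => by positivity
  rw [h2, h3, integral_sub j5 (j4.const_mul _), integral_add j1 (j2.const_mul _),
    integral_const_mul, integral_const_mul] at h1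
  have h5 : ∫ k, Real.exp (-(q * k ^ 2)) ∂nu = WW q := rfl
  have h6 : ∫ k, k ^ 2 * Real.exp (-(q * k ^ 2)) ∂nu = LL q := rfl
  rw [h5, h6] at h1
  have h7 := mul_nonneg hq h4
  linarith

include hKM in
theorem WW_deriv {q : ℝ} (hq : 0 < q) : HasDerivAt WW (-LL q) q := by
  have := hKM.1
  have hk2 : Integrable (fun k : ℝ => k ^ 2) nu := by
    by_contra hni
    have h := hKM.2.2.2.1
    rw [integral_undef hni] at h
    norm_num at h
  have h := hasDerivAt_integral_of_dominated_loc_of_deriv_le (μ := nu) (x₀ := q)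
    (s := Metric.ball q q) (bound := fun k : ℝ => k ^ 2)
    (F := fun p k : ℝ => Real.exp (-(p * k ^ 2)))
    (F' := fun p k : ℝ => -(k ^ 2 * Real.exp (-(p * k ^ 2))))
    (Metric.ball_mem_nhds q hq)
    (Eventually.of_forall fun p => Continuous.aestronglyMeasurable (by fun_prop)) (i3 hKM hq.le)
    (Continuous.aestronglyMeasurable (by fun_prop))
    (Eventually.of_forall fun k p hp => ?_) hk2
    (Eventually.of_forall fun k p _ => ?_)
  · have h2 := h.2
    rw [integral_neg] at h2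
    exact h2
  · rw [norm_neg, Real.norm_of_nonneg (by positivity)]
    have hp0 : 0 ≤ p := by
      rw [Metric.mem_ball, Real.dist_eq] at hp
      linarith [(abs_lt.1 hp).1]
    have := mul_le_mul_of_nonneg_left (exp_le hp0 k) (sq_nonneg k)
    linarith
  · have h1 : HasDerivAt (fun p : ℝ => -(p * k ^ 2)) (-(1 * k ^ 2)) p :=
      ((hasDerivAt_id p).mul_const (k ^ 2)).neg
    refine h1.exp.congr_deriv ?_
    ring

include hKM in
theorem WW_cont : ContinuousOn WW (Set.Ici 0) := by
  have := hKM.1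
  refine continuousOn_of_dominated (bound := fun _ : ℝ => (1 : ℝ))
    (fun p _ => Continuous.aestronglyMeasurable (by fun_prop))
    (fun p hp => Eventually.of_forall fun k => ?_)
    (integrable_const 1) (Eventually.of_forall fun k => ?_)
  · rw [Real.norm_of_nonneg (Real.exp_pos _).le]
    exact exp_le hp k
  · have : Continuous fun p : ℝ => Real.exp (-(p * k ^ 2)) := by fun_prop
    exact this.continuousOn

include hKM in
theorem WW_zero : WW 0 = 1 := by
  have := hKM.1
  unfold WW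
  simp

theorem WW_nonneg (q : ℝ) : 0 ≤ WW q := integral_nonneg fun _ => (Real.exp_pos _).le

include hKM in
/-- the lower bound for `W` -/
theorem WW_lower (hKS : KappaStein) {q : ℝ} (hq : 0 ≤ q) :
    3 ≤ WW q ^ 2 * (3 + 2 * q) := by
  have hmono : MonotoneOn (fun p => WW p ^ 2 * (3 + 2 * p)) (Set.Ici 0) := by
    refine monotoneOn_of_deriv_nonneg (convex_Ici 0) ?_ ?_ ?_
    · exact ((WW_cont hKM).pow 2).mul (by fun_prop)
    · intro p hp
      rw [interior_Ici] at hp
      have h := WW_deriv hKM (Set.mem_Ioi.1 hp)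
      exact ((h.differentiableAt.pow 2).mul (by fun_prop)).differentiableWithinAt
    · intro p hp
      rw [interior_Ici] at hp
      have hp' : 0 < p := hp
      have h := WW_deriv hKM hp'
      have h2 : HasDerivAt (fun p : ℝ => 3 + 2 * p) 2 p := by
        have := ((hasDerivAt_id p).const_mul 2).const_add 3
        simpa using this
      have h3 := (h.pow 2).mul h2
      have h4 : deriv (fun p => WW p ^ 2 * (3 + 2 * p)) p =
          2 * WW p * (WW p - (3 + 2 * p) * LL p) := by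
        refine (HasDerivAt.congr_deriv h3 ?_).deriv
        simp
        ring
      rw [h4]
      have h5 := stein2 hKM hKS hp'.le
      exact mul_nonneg (mul_nonneg (by norm_num) (WW_nonneg p)) (by linarith)
  have h := hmono (Set.mem_Ici.2 le_rfl) (Set.mem_Ici.2 hq) hq
  simp only [WW_zero hKM] at h
  linarith

/-- the final inequality in the variable `r` -/
theorem final_ineq {r : ℝ} (h0 : 0 < r) (h1 : r < 1) :
    136 / 25 < 9 * (1 + r) / (5 - 2 * r ^ 2) +
      260 / 3 * (1 - r ^ 2) / (3927 / 1250 * (5 - r ^ 2) + 169 / 8 * r ^ 2) := by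
  have hr2 : r ^ 2 < 1 := by nlinarith
  have d1 : 0 < 5 - 2 * r ^ 2 := by linarith
  have d2 : 0 < 3927 / 1250 * (5 - r ^ 2) + 169 / 8 * r ^ 2 := by nlinarith
  rw [div_add_div _ _ d1.ne' d2.ne', lt_div_iff₀ (mul_pos d1 d2)]
  have k1 : 0 ≤ (r - 161 / 200) ^ 2 * (368 * r ^ 2 + 755 * r + 214) := by positivity
  nlinarith [k1, mul_pos h0 (sub_pos.2 h1), pow_pos h0 3, pow_pos h0 4, pow_pos h0 2]

theorem main (hKM : KappaMoments) (hKS : KappaStein) : KappaNum2 := by
  intro p hp
  have hpm := hKM.1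
  have j1 := i1 hKM hp.le
  have j0 := i1 hKM le_rfl
  -- the function `G`
  have h1 : ∫ κ, (1 - Real.exp (-(p * κ ^ 2))) / (1 + κ ^ 2) ∂nu = 5 / 6 - NN p := by
    rw [← NN_zero hKM]
    unfold NN
    rw [← integral_sub j0 j1]
    refine integral_congr_ae (Eventually.of_forall fun k => ?_)
    simp only
    rw [zero_mul, neg_zero, Real.exp_zero]
    ring
  have h1' : ∫ κ, Real.exp (-(p * κ ^ 2)) ∂nu = WW p := rfl
  rw [h1, h1']
  have hN := NN_lower hKM hKS hp.le
  have hN0 := NN_nonneg p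
  have hW := WW_lower hKM hKS hp.le
  have hW0 := WW_nonneg p
  -- the function `H`
  set H := ∫ κ, (1 + κ ^ 2) * Real.exp (-(p * κ ^ 2)) ∂nu with hH
  have h2 : 8 / (3 * Real.pi) * √(Real.pi / (p + (2 : ℕ))) ≤ H := by
    rw [hH, int_nu]
    have e1 : ∀ κ : ℝ, kd κ * ((1 + κ ^ 2) * Real.exp (-(p * κ ^ 2))) =
        8 / (3 * Real.pi) * (Real.exp (-p * κ ^ 2) / (1 + κ ^ 2) ^ 2) := by
      intro κ
      have e3 : (1 + κ ^ 2 : ℝ) ≠ 0 := by positivity
      unfold kd
      rw [neg_mul]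
      field_simp
    simp only [e1]
    rw [integral_const_mul]
    exact mul_le_mul_of_nonneg_left (gauss_lower hp 2) (by positivity)
  have hπ := Real.pi_lt_d4
  have hπ0 := Real.pi_pos
  have h3 : 52 / 3 / (Real.pi * (p + 2) + 169 / 16) ≤ H := by
    refine le_trans ?_ h2
    push_cast
    set y := √(Real.pi / (p + 2)) with hy
    have hy0 : 0 < y := Real.sqrt_pos.2 (by positivity)
    have hy2 : y ^ 2 * (p + 2) = Real.pi := by
      rw [hy, Real.sq_sqrt (by positivity)]
      field_simp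
    rw [div_le_iff₀ (by positivity)]
    have e : 8 / (3 * Real.pi) * y * (Real.pi * (p + 2) + 169 / 16) =
        8 / (3 * Real.pi) * ((Real.pi ^ 2 + 169 / 16 * y ^ 2) / y) := by
      have : Real.pi * (p + 2) = Real.pi ^ 2 / y ^ 2 := by
        rw [eq_div_iff (by positivity)]
        nlinarith
      rw [this]
      field_simp
    rw [e]
    have e2 : 13 / 2 * Real.pi ≤ (Real.pi ^ 2 + 169 / 16 * y ^ 2) / y := by
      rw [le_div_iff₀ hy0]
      nlinarith [sq_nonneg (Real.pi - 13 / 4 * y)]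
    calc (52 / 3 : ℝ) = 8 / (3 * Real.pi) * (13 / 2 * Real.pi) := by
          field_simp
          norm_num
      _ ≤ _ := mul_le_mul_of_nonneg_left e2 (by positivity)
  -- the variable `r`
  have hD : 0 < 5 + 2 * p := by linarith
  set r : ℝ := √(5 / (5 + 2 * p)) with hr
  have hr2 : r ^ 2 = 5 / (5 + 2 * p) := Real.sq_sqrt (by positivity)
  have hr2' : r ^ 2 * (5 + 2 * p) = 5 := by
    rw [hr2]
    field_simp
  have hr0 : 0 < r := Real.sqrt_pos.2 (by positivity)
  have hr1 : r < 1 := by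
    have : r ^ 2 < 1 := by
      rw [hr2, div_lt_one hD]
      linarith
    nlinarith
  have hN2 : 5 / 6 * r ≤ NN p := by
    refine le_of_pow_le_pow_left₀ two_ne_zero hN0 ?_
    rw [mul_pow, hr2, ← mul_div_assoc, div_le_iff₀ hD]
    exact hN
  -- the variable `w`
  have hE : 0 < 3 + 2 * p := by linarith
  set w : ℝ := √(3 / (3 + 2 * p)) with hw
  have hw2 : w ^ 2 = 3 / (3 + 2 * p) := Real.sq_sqrt (by positivity)
  have hw0 : 0 < w := Real.sqrt_pos.2 (by positivity)
  have hW2 : w ≤ WW p := by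
    refine le_of_pow_le_pow_left₀ two_ne_zero hW0 ?_
    rw [hw2, div_le_iff₀ hE]
    exact hW
  set g : ℝ := 5 / 6 * (1 - r) with hg
  have hg0 : 0 < g := by
    rw [hg]
    linarith
  refine ⟨w / g, by positivity, ?_⟩
  have h4 : 52 / 3 / (Real.pi * (p + 2) + 169 / 16) + w ^ 2 / g ≤
      H + 2 * (w / g) * WW p - (w / g) ^ 2 * (5 / 6 - NN p) := by
    have e1 : 2 * (w / g) * w ≤ 2 * (w / g) * WW p :=
      mul_le_mul_of_nonneg_left hW2 (by positivity)
    have e2 : (w / g) ^ 2 * (5 / 6 - NN p) ≤ (w / g) ^ 2 * g :=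
      mul_le_mul_of_nonneg_left (by rw [hg]; linarith) (by positivity)
    have e3 : w ^ 2 / g = 2 * (w / g) * w - (w / g) ^ 2 * g := by
      field_simp
      ring
    linarith
  have h5 : 136 / 25 < p * (52 / 3 / (Real.pi * (p + 2) + 169 / 16) + w ^ 2 / g) := by
    refine (final_ineq hr0 hr1).trans_le ?_
    have hr2l : r ^ 2 < 1 := by nlinarith
    have q1 : p * (w ^ 2 / g) = 9 * (1 + r) / (5 - 2 * r ^ 2) := by
      have d1 : 0 < 5 - 2 * r ^ 2 := by linarith
      have hp2 : p = 5 * (1 - r ^ 2) / (2 * r ^ 2) := by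
        rw [eq_div_iff (by positivity)]
        linarith
      have hE2 : 3 + 2 * p = (5 - 2 * r ^ 2) / r ^ 2 := by
        rw [eq_div_iff (by positivity)]
        linarith
      rw [hw2, hE2, hg, hp2]
      have d3 : 1 - r ≠ 0 := by linarith
      field_simp
      ring
    have q2 : 260 / 3 * (1 - r ^ 2) / (3927 / 1250 * (5 - r ^ 2) + 169 / 8 * r ^ 2) ≤
        p * (52 / 3 / (Real.pi * (p + 2) + 169 / 16)) := by
      have e1 : p * (52 / 3 / (Real.pi * (p + 2) + 169 / 16)) =
          260 / 3 * (1 - r ^ 2) / (Real.pi * (5 - r ^ 2) + 169 / 8 * r ^ 2) := by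
        rw [← mul_div_assoc, div_eq_div_iff (by positivity)
          (by have : 0 < Real.pi * (5 - r ^ 2) := mul_pos hπ0 (by linarith)
              positivity)]
        have e2 : 2 * r ^ 2 * p = 5 * (1 - r ^ 2) := by linarith
        have e3 : 5 - r ^ 2 = 2 * r ^ 2 * (p + 2) := by linarith
        rw [e3, show 260 / 3 * (1 - r ^ 2) = 52 / 3 * (5 * (1 - r ^ 2)) by ring, ← e2]
        ring
      rw [e1]
      refine div_le_div_of_nonneg_left (by nlinarith) ?_ ?_
      · have : 0 < Real.pi * (5 - r ^ 2) := mul_pos hπ0 (by linarith)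
        positivity
      · have : Real.pi * (5 - r ^ 2) ≤ 3927 / 1250 * (5 - r ^ 2) := by
          refine mul_le_mul_of_nonneg_right ?_ (by linarith)
          norm_num at hπ ⊢
          linarith
        linarith
    rw [mul_add p, q1]
    linarith
  exact h5.trans_le (mul_le_mul_of_nonneg_left h4 hp.le)

end Pool.Agent.TH253.FV.KNB
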