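import Pool.Agent.TH253.FV.Stm

/-! # A numerical constant -/

set_option autoImplicit false

namespace Pool.Agent.TH253.FV.NF

theorem main : NumFinal2 := by
  unfold NumFinal2
  have h1 : (1.73205 : ℝ) ≤ √3 := by
    apply Real.le_sqrt_of_sq_le
    norm_num
  have h2 : (1.648721 : ℝ) ≤ Real.exp (1 / 2) := by
    refine le_trans ?_ (Real.sum_le_exp_of_nonneg (by norm_num) 10)
    simp only [Finset.sum_range_succ, Finset.sum_range_zero, Nat.factorial]
    norm_num
  have h3 : (1 - 1 / 15000 : ℝ) ≤ Real.exp (-(4 * (1 / 60000))) := by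
    refine le_trans ?_ (Real.add_one_le_exp _)
    norm_num
  have h5 : Real.exp (-(4 * (17 / 25))) ≤ 0.067 := by
    rw [Real.exp_neg]
    have h4 : (15 : ℝ) ≤ Real.exp (4 * (17 / 25)) := by
      refine le_trans ?_ (Real.sum_le_exp_of_nonneg (by norm_num) 10)
      simp only [Finset.sum_range_succ, Finset.sum_range_zero, Nat.factorial]
      norm_num
    refine (inv_anti₀ (by norm_num) h4).trans ?_
    norm_num
  have h6 : √(2 * Real.pi) ≤ 2.506629 := by
    rw [Real.sqrt_le_left (by norm_num)]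
    have := Real.pi_lt_d6
    norm_num at this ⊢
    linarith
  have h7 : 0 < √(2 * Real.pi) := Real.sqrt_pos.2 (by positivity)
  rw [le_div_iff₀ h7]
  have h8 : (0.1975 : ℝ) ≤ KK := by
    have e1 : (0.198037 : ℝ) ≤ qq (1 / 60000) := by
      unfold qq
      norm_num
    have e2 : qq (17 / 25) ≤ 0.007408 := by
      unfold qq
      norm_num
    have e3 : 0 ≤ qq (17 / 25) := by
      unfold qq
      norm_num
    have f1 : 0.198037 * (1 - 1 / 15000 : ℝ) ≤ qq (1 / 60000) * Real.exp (-(4 * (1 / 60000))) :=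
      mul_le_mul e1 h3 (by norm_num) (by linarith)
    have f2 : qq (17 / 25) * Real.exp (-(4 * (17 / 25))) ≤ 0.007408 * 0.067 :=
      mul_le_mul e2 h5 (Real.exp_pos _).le (by norm_num)
    unfold KK
    norm_num at f1 f2 ⊢
    linarith
  calc 9 / 40 * √(2 * Real.pi) ≤ 9 / 40 * 2.506629 := by linarith
    _ ≤ 1.73205 * 1.648721 * 0.1975 := by norm_num
    _ ≤ _ := by gcongr

end Pool.Agent.TH253.FV.NF
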