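import Pool.Agent.W125.FV.AI
import Pool.Agent.W21.FV.Sy
import Pool.Agent.W762.FV.GI

/-!
# A one-sided bound: `⟨A v, v⟩ ≤ S |v|²`
-/

set_option autoImplicit false

open MeasureTheory Filter Topology

namespace Pool.Agent.TH253.FV.OS

open Pool.Agent.W716.FV
open Pool.Agent.W762.FV (int_gauss cc cc_pos gd_eq gd_nonneg gd_cont gd_shift gd_deriv)

theorem dom3 {r : ℝ} (_hr : 0 ≤ r) :
    (1 + r) ^ 3 * Real.exp (-r ^ 2 / 4) ≤ 343 * Real.exp (-r ^ 2 / 8) := by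
  have e1 : Real.exp (-r ^ 2 / 8) = Real.exp (r ^ 2 / 24) ^ 3 * Real.exp (-r ^ 2 / 4) := by
    rw [← Real.exp_nat_mul, ← Real.exp_add]
    push_cast
    ring_nf
  rw [e1, ← mul_assoc]
  refine mul_le_mul_of_nonneg_right ?_ (Real.exp_pos _).le
  have h1 : 1 + r ≤ 7 * Real.exp (r ^ 2 / 24) := by
    have := Real.add_one_le_exp (r ^ 2 / 24)
    nlinarith [sq_nonneg (r - 12 / 7)]
  calc (1 + r) ^ 3 ≤ (7 * Real.exp (r ^ 2 / 24)) ^ 3 := pow_le_pow_left₀ (by linarith) h1 3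
    _ = _ := by ring

theorem wd {n : ℕ} (f : E n → ℝ) : ∫ x, f x ∂(gam n) = ∫ x, gd n x * f x := by
  unfold gam
  rw [integral_withDensity_eq_integral_toReal_smul
    ((gd_cont n).measurable.ennreal_ofReal) (Filter.Eventually.of_forall fun x =>
      ENNReal.ofReal_lt_top)]
  refine integral_congr_ae (Filter.Eventually.of_forall fun x => ?_)
  simp only [smul_eq_mul, ENNReal.toReal_ofReal (gd_nonneg n x)]

theorem ker_deriv {n : ℕ} (x v : E n) (t : ℝ) :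
    HasDerivAt (fun t : ℝ => (inner ℝ x v - t * ‖v‖ ^ 2) * gd n (x - t • v))
      (((inner ℝ x v - t * ‖v‖ ^ 2) ^ 2 - ‖v‖ ^ 2) * gd n (x - t • v)) t := by
  have h1 : HasDerivAt (fun t : ℝ => (inner ℝ x v : ℝ) - t * ‖v‖ ^ 2) (-(1 * ‖v‖ ^ 2)) t :=
    ((hasDerivAt_id t).mul_const (‖v‖ ^ 2)).const_sub _
  refine (h1.mul (gd_deriv x v t)).congr_deriv ?_
  ring

/-- second integration by parts -/
theorem ibp2 (hGM : GaussMoments) {n : ℕ} {u : E n → ℝ} {R : ℝ} (hR : 0 ≤ R)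
    (hu : ∀ x y, |u x - u y| ≤ R * ‖x - y‖)
    (hd : ∀ c : E n, ∀ᵐ x ∂(gam n), DifferentiableAt ℝ u (x + c)) (c v : E n) :
    ∫ x, fderiv ℝ u (x + c) v * inner ℝ x v ∂(gam n) =
      ∫ x, u (x + c) * ((inner ℝ x v) ^ 2 - ‖v‖ ^ 2) ∂(gam n) := by
  obtain ⟨hp, hmom, -⟩ := hGM n
  have h1i : Integrable (fun x : E n => ‖x‖) (gam n) := by simpa using hmom 1
  have h2i : Integrable (fun x : E n => ‖x‖ ^ 2) (gam n) := hmom 2
  have hcu : Continuous u := Pool.Agent.W21.FV.good_cont hR hu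
  obtain ⟨s1, s2⟩ := Pool.Agent.W21.FV.second h1i h2i hR hu hd c
  -- first form of the derivative
  have hline : HasDerivAt (fun t : ℝ => c + t • v) v 0 := by
    have := ((hasDerivAt_id (0 : ℝ)).smul_const v).const_add c
    simpa using this
  have s3 : HasDerivAt (fun t : ℝ => ∫ x, u (x + (c + t • v)) • x ∂(gam n))
      ((∫ x, (fderiv ℝ u (x + c)).smulRight x ∂(gam n)) v) 0 := by
    have s2' : HasFDerivAt (fun d : E n => ∫ x, u (x + d) • x ∂(gam n))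
        (∫ x, (fderiv ℝ u (x + c)).smulRight x ∂(gam n)) (c + (0 : ℝ) • v) := by
      rw [zero_smul, add_zero]
      exact s2
    exact s2'.comp_hasDerivAt (0 : ℝ) hline
  have s4 : HasDerivAt (fun t : ℝ => (inner ℝ (∫ x, u (x + (c + t • v)) • x ∂(gam n)) v : ℝ))
      (inner ℝ ((∫ x, (fderiv ℝ u (x + c)).smulRight x ∂(gam n)) v) v) 0 := by
    have := s3.inner ℝ (hasDerivAt_const (0 : ℝ) v)
    simpa using this
  have e1 : (inner ℝ ((∫ x, (fderiv ℝ u (x + c)).smulRight x ∂(gam n)) v) v : ℝ) =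
      ∫ x, fderiv ℝ u (x + c) v * inner ℝ x v ∂(gam n) := by
    rw [ContinuousLinearMap.integral_apply s1, real_inner_comm,
      ← integral_inner (s1.apply_continuousLinearMap v) v]
    refine integral_congr_ae (Filter.Eventually.of_forall fun x => ?_)
    simp only [ContinuousLinearMap.smulRight_apply]
    rw [real_inner_smul_right, real_inner_comm]
  rw [e1] at s4
  have e2 : (fun t : ℝ => (inner ℝ (∫ x, u (x + (c + t • v)) • x ∂(gam n)) v : ℝ)) =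
      fun t : ℝ => ∫ x, u (x + c) * ((inner ℝ x v - t * ‖v‖ ^ 2) * gd n (x - t • v)) := by
    funext t
    rw [real_inner_comm, ← integral_inner
      (Pool.Agent.W21.FV.trans_int h1i h2i hR hu (c + t • v)) v, wd,
      ← integral_add_right_eq_self (fun x : E n =>
        u (x + c) * ((inner ℝ x v - t * ‖v‖ ^ 2) * gd n (x - t • v))) (t • v)]
    refine integral_congr_ae (Filter.Eventually.of_forall fun x => ?_)
    simp only
    have e3 : x + t • v + c = x + (c + t • v) := by abel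
    rw [e3, add_sub_cancel_right, inner_add_left, real_inner_smul_left, real_inner_self_eq_norm_sq,
      real_inner_smul_right, real_inner_comm]
    ring
  rw [e2] at s4
  -- second form of the derivative
  set a : ℝ := |u c| with ha
  have ha0 : 0 ≤ a := abs_nonneg _
  have hF : ∀ x : E n, |u (x + c)| ≤ (a + R) * (1 + ‖x‖) := by
    intro x
    have h1 := hu (x + c) c
    rw [add_sub_cancel_right] at h1
    have h2 : |u (x + c)| ≤ |u (x + c) - u c| + |u c| := by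
      have := abs_add_le (u (x + c) - u c) (u c)
      rwa [sub_add_cancel] at this
    nlinarith [norm_nonneg x, mul_nonneg ha0 (norm_nonneg x)]
  set K : ℝ := cc n * Real.exp (‖v‖ ^ 2 / 2) with hK
  have hK0 : 0 ≤ K := mul_nonneg (cc_pos n).le (Real.exp_pos _).le
  have hip : ∀ (x : E n) (t : ℝ), |t| ≤ 1 →
      |(inner ℝ x v - t * ‖v‖ ^ 2 : ℝ)| ≤ (‖v‖ + ‖v‖ ^ 2) * (1 + ‖x‖) := by
    intro x t ht
    calc |(inner ℝ x v - t * ‖v‖ ^ 2 : ℝ)| ≤ |(inner ℝ x v : ℝ)| + |t * ‖v‖ ^ 2| := abs_sub _ _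
      _ ≤ ‖x‖ * ‖v‖ + 1 * ‖v‖ ^ 2 := by
        refine add_le_add (abs_real_inner_le_norm x v) ?_
        rw [abs_mul, abs_of_nonneg (sq_nonneg ‖v‖)]
        exact mul_le_mul_of_nonneg_right ht (sq_nonneg _)
      _ ≤ _ := by
        have h7 := mul_nonneg (norm_nonneg x) (sq_nonneg ‖v‖)
        nlinarith [norm_nonneg x, norm_nonneg v]
  have hcont : ∀ t : ℝ, Continuous (fun x : E n =>
      u (x + c) * ((inner ℝ x v - t * ‖v‖ ^ 2) * gd n (x - t • v))) := by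
    intro t
    refine (hcu.comp (by fun_prop)).mul (Continuous.mul (by fun_prop) ?_)
    exact (gd_cont n).comp (by fun_prop)
  have hcont2 : ∀ t : ℝ, Continuous (fun x : E n =>
      u (x + c) * (((inner ℝ x v - t * ‖v‖ ^ 2) ^ 2 - ‖v‖ ^ 2) * gd n (x - t • v))) := by
    intro t
    refine (hcu.comp (by fun_prop)).mul (Continuous.mul (by fun_prop) ?_)
    exact (gd_cont n).comp (by fun_prop)
  have hint0 : Integrable (fun x : E n =>
      u (x + c) * ((inner ℝ x v - (0 : ℝ) * ‖v‖ ^ 2) * gd n (x - (0 : ℝ) • v))) := by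
    refine Integrable.mono' ((int_gauss n).const_mul ((a + R) * (‖v‖ + ‖v‖ ^ 2) * K * 343))
      (hcont 0).aestronglyMeasurable (Filter.Eventually.of_forall fun x => ?_)
    rw [Real.norm_eq_abs, abs_mul, abs_mul, abs_of_nonneg (gd_nonneg _ _)]
    have h3 := dom3 (norm_nonneg x)
    calc |u (x + c)| * (|(inner ℝ x v - (0 : ℝ) * ‖v‖ ^ 2 : ℝ)| * gd n (x - (0 : ℝ) • v))
        ≤ ((a + R) * (1 + ‖x‖)) * (((‖v‖ + ‖v‖ ^ 2) * (1 + ‖x‖)) *
            (K * Real.exp (-‖x‖ ^ 2 / 4))) := by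
          refine mul_le_mul (hF x) (mul_le_mul (hip x 0 (by simp)) (gd_shift x v (by simp))
            (gd_nonneg _ _) (by positivity)) (mul_nonneg (abs_nonneg _) (gd_nonneg _ _))
            (by positivity)
      _ = (a + R) * (‖v‖ + ‖v‖ ^ 2) * K * ((1 + ‖x‖) ^ 2 * 1 * Real.exp (-‖x‖ ^ 2 / 4)) := by ring
      _ ≤ (a + R) * (‖v‖ + ‖v‖ ^ 2) * K *
            ((1 + ‖x‖) ^ 2 * (1 + ‖x‖) * Real.exp (-‖x‖ ^ 2 / 4)) := by
          gcongr
          linarith [norm_nonneg x]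
      _ = (a + R) * (‖v‖ + ‖v‖ ^ 2) * K * ((1 + ‖x‖) ^ 3 * Real.exp (-‖x‖ ^ 2 / 4)) := by ring
      _ ≤ (a + R) * (‖v‖ + ‖v‖ ^ 2) * K * (343 * Real.exp (-‖x‖ ^ 2 / 8)) :=
          mul_le_mul_of_nonneg_left h3 (by positivity)
      _ = _ := by ring
  have hder := (hasDerivAt_integral_of_dominated_loc_of_deriv_le (μ := (volume : Measure (E n)))
    (F := fun (t : ℝ) (x : E n) =>
      u (x + c) * ((inner ℝ x v - t * ‖v‖ ^ 2) * gd n (x - t • v)))
    (F' := fun (t : ℝ) (x : E n) =>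
      u (x + c) * (((inner ℝ x v - t * ‖v‖ ^ 2) ^ 2 - ‖v‖ ^ 2) * gd n (x - t • v)))
    (x₀ := (0 : ℝ)) (s := Metric.closedBall 0 1)
    (bound := fun x => (a + R) * ((‖v‖ + ‖v‖ ^ 2) ^ 2 + ‖v‖ ^ 2) * K * 343 *
      Real.exp (-‖x‖ ^ 2 / 8))
    (Metric.closedBall_mem_nhds _ one_pos) (Filter.Eventually.of_forall fun t =>
      (hcont t).aestronglyMeasurable) hint0 (hcont2 0).aestronglyMeasurable
    (Filter.Eventually.of_forall fun x t ht => by
      have ht' : |t| ≤ 1 := by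
        rw [Metric.mem_closedBall, Real.dist_eq, sub_zero] at ht
        exact ht
      have h3 := dom3 (norm_nonneg x)
      have h2 : |(inner ℝ x v - t * ‖v‖ ^ 2) ^ 2 - ‖v‖ ^ 2| ≤
          ((‖v‖ + ‖v‖ ^ 2) ^ 2 + ‖v‖ ^ 2) * (1 + ‖x‖) ^ 2 := by
        have h4 := hip x t ht'
        have h5 : (inner ℝ x v - t * ‖v‖ ^ 2) ^ 2 ≤ ((‖v‖ + ‖v‖ ^ 2) * (1 + ‖x‖)) ^ 2 := by
          rw [← sq_abs]
          exact pow_le_pow_left₀ (abs_nonneg _) h4 2
        have h6 : (1 : ℝ) ≤ (1 + ‖x‖) ^ 2 := one_le_pow₀ (by linarith [norm_nonneg x])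
        calc |(inner ℝ x v - t * ‖v‖ ^ 2) ^ 2 - ‖v‖ ^ 2| ≤
            |(inner ℝ x v - t * ‖v‖ ^ 2) ^ 2| + |‖v‖ ^ 2| := abs_sub _ _
          _ ≤ ((‖v‖ + ‖v‖ ^ 2) * (1 + ‖x‖)) ^ 2 + ‖v‖ ^ 2 * (1 + ‖x‖) ^ 2 := by
            rw [abs_of_nonneg (sq_nonneg _), abs_of_nonneg (sq_nonneg ‖v‖)]
            refine add_le_add h5 ?_
            nlinarith [sq_nonneg ‖v‖]
          _ = _ := by ring
      rw [Real.norm_eq_abs, abs_mul, abs_mul, abs_of_nonneg (gd_nonneg _ _)]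
      calc |u (x + c)| * (|(inner ℝ x v - t * ‖v‖ ^ 2) ^ 2 - ‖v‖ ^ 2| * gd n (x - t • v))
          ≤ ((a + R) * (1 + ‖x‖)) * ((((‖v‖ + ‖v‖ ^ 2) ^ 2 + ‖v‖ ^ 2) * (1 + ‖x‖) ^ 2) *
              (K * Real.exp (-‖x‖ ^ 2 / 4))) := by
            refine mul_le_mul (hF x) (mul_le_mul h2 (gd_shift x v ht') (gd_nonneg _ _)
              (by positivity)) (mul_nonneg (abs_nonneg _) (gd_nonneg _ _)) (by positivity)
        _ = (a + R) * ((‖v‖ + ‖v‖ ^ 2) ^ 2 + ‖v‖ ^ 2) * K *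
              ((1 + ‖x‖) ^ 3 * Real.exp (-‖x‖ ^ 2 / 4)) := by ring
        _ ≤ (a + R) * ((‖v‖ + ‖v‖ ^ 2) ^ 2 + ‖v‖ ^ 2) * K *
              (343 * Real.exp (-‖x‖ ^ 2 / 8)) := mul_le_mul_of_nonneg_left h3 (by positivity)
        _ = _ := by ring)
    ((int_gauss n).const_mul _)
    (Filter.Eventually.of_forall fun x t _ => (ker_deriv x v t).const_mul (u (x + c)))).2
  have huniq := s4.unique hder
  rw [huniq, wd]
  refine integral_congr_ae (Filter.Eventually.of_forall fun x => ?_)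
  simp only [zero_mul, sub_zero, zero_smul]
  ring

open Pool.Agent.W125.FV (AA_inner int_Gg integ gr_inner meas_xi)

/-- the one-sided bound -/
theorem main (hGM : GaussMoments) (hPM : PMoments) (hGF : GoodFacts) (n : ℕ) (R : ℝ)
    (u : E n → ℝ) (hR : 0 ≤ R) (hu : Good R u) (η v : E n) :
    (inner ℝ (AA u η v) v : ℝ) ≤ SS R u η * ‖v‖ ^ 2 := by
  obtain ⟨hprob, hPi, -, hk1, hk2, hk0, -, hvar, -⟩ := hPM n
  obtain ⟨g1, g2, g3, g4, g5, g6⟩ := hGF n R u hR hu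
  have hp := (hGM n).1
  have hsf : SFinite nu := by
    unfold nu
    infer_instance
  have hcu : Continuous u := Pool.Agent.W21.FV.good_cont hR hu.lip
  have hxi : Measurable (xi η : E n × ℝ → E n) := meas_xi η
  have hxb : ∀ w : E n × ℝ, |u (xi η w)| ≤ R * (‖w.1‖ + |w.2| * ‖η‖) := by
    intro w
    refine (g2 _).trans (mul_le_mul_of_nonneg_left ?_ hR)
    unfold xi
    refine (norm_add_le _ _).trans ?_
    rw [norm_smul, Real.norm_eq_abs]
  have hib : ∀ w : E n × ℝ, |(inner ℝ w.1 v : ℝ)| ≤ ‖w.1‖ * ‖v‖ := fun w =>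
    abs_real_inner_le_norm _ _
  have h1 := AA_inner hPM hGF hR hu η v v
  have hi : Integrable (fun w : E n × ℝ =>
      w.2 * inner ℝ (gr u (xi η w)) v * inner ℝ w.1 v) (P n) := by
    have := int_Gg hPM hGF hR hu η v v 1 (by norm_num)
    simpa using this
  -- integrability
  have hi2 : Integrable (fun w : E n × ℝ =>
      w.2 * (u (xi η w) * ((inner ℝ w.1 v) ^ 2 - ‖v‖ ^ 2))) (P n) := by
    have b1 := (hPi 1 3 (by norm_num)).const_mul (R * ‖v‖ ^ 2)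
    have b2 := (hPi 1 1 (by norm_num)).const_mul (R * ‖v‖ ^ 2)
    have b3 := (hPi 2 2 (by norm_num)).const_mul (R * ‖η‖ * ‖v‖ ^ 2)
    have b4 := (hPi 2 0 (by norm_num)).const_mul (R * ‖η‖ * ‖v‖ ^ 2)
    refine ((b1.add b2).add (b3.add b4)).mono' ?_ (Filter.Eventually.of_forall fun w => ?_)
    · refine Measurable.aestronglyMeasurable ?_
      refine measurable_snd.mul ((hcu.measurable.comp hxi).mul ?_)
      exact ((measurable_fst.inner_const).pow_const 2).sub_const _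
    · have h3 : |(inner ℝ w.1 v : ℝ) ^ 2 - ‖v‖ ^ 2| ≤ ‖w.1‖ ^ 2 * ‖v‖ ^ 2 + ‖v‖ ^ 2 := by
        calc |(inner ℝ w.1 v : ℝ) ^ 2 - ‖v‖ ^ 2| ≤ |(inner ℝ w.1 v : ℝ) ^ 2| + |‖v‖ ^ 2| :=
              abs_sub _ _
          _ ≤ (‖w.1‖ * ‖v‖) ^ 2 + ‖v‖ ^ 2 := by
            rw [abs_pow, abs_of_nonneg (sq_nonneg ‖v‖)]
            exact add_le_add (pow_le_pow_left₀ (abs_nonneg _) (hib w) 2) le_rfl
          _ = _ := by ring
      rw [Real.norm_eq_abs, abs_mul, abs_mul]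
      simp only [Pi.add_apply]
      calc |w.2| * (|u (xi η w)| * |(inner ℝ w.1 v : ℝ) ^ 2 - ‖v‖ ^ 2|)
          ≤ |w.2| * ((R * (‖w.1‖ + |w.2| * ‖η‖)) * (‖w.1‖ ^ 2 * ‖v‖ ^ 2 + ‖v‖ ^ 2)) := by
            have := hxb w
            gcongr
        _ = _ := by ring
  have hi3 : Integrable (fun w : E n × ℝ => w.2 ^ 2 * ((inner ℝ w.1 v : ℝ) * inner ℝ w.1 v))
      (P n) := by
    refine integ hPM ?_ 2 2 (by norm_num) (‖v‖ ^ 2) fun w => ?_
    · exact ((measurable_snd.pow_const 2).mul ((measurable_fst.inner_const).mul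
        (measurable_fst.inner_const))).aestronglyMeasurable
    · rw [Real.norm_eq_abs, abs_mul, abs_mul, abs_pow]
      have := hib w
      calc |w.2| ^ 2 * (|(inner ℝ w.1 v : ℝ)| * |(inner ℝ w.1 v : ℝ)|)
          ≤ |w.2| ^ 2 * ((‖w.1‖ * ‖v‖) * (‖w.1‖ * ‖v‖)) := by gcongr
        _ = ‖v‖ ^ 2 * (|w.2| ^ 2 * ‖w.1‖ ^ 2) := by ring
  have hi4 : Integrable (fun w : E n × ℝ => w.2 * (u w.1 * (inner ℝ w.1 v) ^ 2)) (P n) := by
    refine integ hPM ?_ 1 3 (by norm_num) (R * ‖v‖ ^ 2) fun w => ?_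
    · exact (measurable_snd.mul ((hcu.measurable.comp measurable_fst).mul
        ((measurable_fst.inner_const).pow_const 2))).aestronglyMeasurable
    · rw [Real.norm_eq_abs, abs_mul, abs_mul, abs_pow, pow_one]
      have e1 := hib w
      have e2 := g2 w.1
      calc |w.2| * (|u w.1| * |(inner ℝ w.1 v : ℝ)| ^ 2)
          ≤ |w.2| * ((R * ‖w.1‖) * (‖w.1‖ * ‖v‖) ^ 2) := by gcongr
        _ = R * ‖v‖ ^ 2 * (|w.2| * ‖w.1‖ ^ 3) := by ring
  have hi5 : Integrable (fun w : E n × ℝ => w.2 * u (xi η w)) (P n) := by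
    have b1 := (hPi 1 1 (by norm_num)).const_mul R
    have b2 := (hPi 2 0 (by norm_num)).const_mul (R * ‖η‖)
    refine (b1.add b2).mono' (measurable_snd.mul (hcu.measurable.comp hxi)).aestronglyMeasurable
      (Filter.Eventually.of_forall fun w => ?_)
    rw [Real.norm_eq_abs, abs_mul]
    simp only [Pi.add_apply]
    calc |w.2| * |u (xi η w)| ≤ |w.2| * (R * (‖w.1‖ + |w.2| * ‖η‖)) := by
          have := hxb w
          gcongr
      _ = _ := by ring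
  -- second integration by parts
  have h2 : ∫ w, w.2 * inner ℝ (gr u (xi η w)) v * inner ℝ w.1 v ∂(P n) =
      ∫ w, w.2 * (u (xi η w) * ((inner ℝ w.1 v) ^ 2 - ‖v‖ ^ 2)) ∂(P n) := by
    unfold P at hi hi2 ⊢
    rw [integral_prod_symm _ hi, integral_prod_symm _ hi2]
    refine integral_congr_ae (Filter.Eventually.of_forall fun κ => ?_)
    have h3 := ibp2 hGM hR hu.lip g5 (κ • η) v
    change ∫ x, κ * inner ℝ (gr u (x + κ • η)) v * inner ℝ x v ∂(gam n) =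
      ∫ x, κ * (u (x + κ • η) * ((inner ℝ x v) ^ 2 - ‖v‖ ^ 2)) ∂(gam n)
    rw [integral_const_mul, ← h3, ← integral_const_mul]
    refine integral_congr_ae (Filter.Eventually.of_forall fun x => ?_)
    simp only
    rw [gr_inner]
    ring
  rw [h1, h2]
  have h3 : ∫ w, w.2 * (u (xi η w) * ((inner ℝ w.1 v) ^ 2 - ‖v‖ ^ 2)) ∂(P n) ≤
      ∫ w, ((R * ‖η‖ * (w.2 ^ 2 * ((inner ℝ w.1 v : ℝ) * inner ℝ w.1 v)) +
        w.2 * (u w.1 * (inner ℝ w.1 v) ^ 2)) - ‖v‖ ^ 2 * (w.2 * u (xi η w))) ∂(P n) := by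
    refine integral_mono hi2 (((hi3.const_mul _).add hi4).sub (hi5.const_mul _)) fun w => ?_
    simp only
    have e1 : w.2 * (u (xi η w) - u w.1) ≤ R * ‖η‖ * w.2 ^ 2 := by
      calc w.2 * (u (xi η w) - u w.1) ≤ |w.2 * (u (xi η w) - u w.1)| := le_abs_self _
        _ = |w.2| * |u (xi η w) - u w.1| := abs_mul _ _
        _ ≤ |w.2| * (R * ‖xi η w - w.1‖) := by
          have := hu.lip (xi η w) w.1
          gcongr
        _ = R * ‖η‖ * w.2 ^ 2 := by
          have e2 : xi η w - w.1 = w.2 • η := by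
            unfold xi
            abel
          rw [e2, norm_smul, Real.norm_eq_abs, ← sq_abs w.2]
          ring
    have e3 := mul_le_mul_of_nonneg_right e1 (sq_nonneg (inner ℝ w.1 v : ℝ))
    nlinarith
  refine h3.trans ?_
  have hi34 : Integrable (fun w : E n × ℝ =>
      R * ‖η‖ * (w.2 ^ 2 * ((inner ℝ w.1 v : ℝ) * inner ℝ w.1 v)) +
        w.2 * (u w.1 * (inner ℝ w.1 v) ^ 2)) (P n) := (hi3.const_mul _).add hi4
  have h4 : ∫ w, w.2 * (u w.1 * (inner ℝ w.1 v) ^ 2) ∂(P n) = 0 :=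
    hk0 (fun x => u x * (inner ℝ x v) ^ 2)
  have h5 : ∫ w, w.2 * u (xi η w) ∂(P n) = (R ^ 2 + ‖η‖ ^ 2) / 6 - SS R u η := by
    unfold SS
    ring
  rw [integral_sub hi34 (hi5.const_mul _), integral_add (hi3.const_mul _) hi4,
    integral_const_mul, integral_const_mul, hvar, h4, h5, real_inner_self_eq_norm_sq]
  nlinarith [mul_nonneg (sq_nonneg (R - ‖η‖)) (sq_nonneg ‖v‖)]

end Pool.Agent.TH253.FV.OS
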