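import Pool.Agent.TH253.FV.Stm
import Pool.Agent.W293.FV.OV

/-!
# Overlap of two shifted Gaussians, second form
-/

set_option autoImplicit false

open MeasureTheory Filter Topology Set

namespace Pool.Agent.TH253.FV.OV

open Pool.Agent.W716.FV (E gam gd GaussMoments)
open Pool.Agent.W293.FV.OV

/-- a pointwise inequality -/
theorem ptw {α β h k ρ t f : ℝ} (hα : h ^ 2 = α) (hβ : k ^ 2 = β) :
    t * (|β - α| * f) ≤ (α + β) * f ^ 2 +
      t ^ 2 / 4 * ((1 + ρ ^ 2) * (α + β) - 4 * ρ * (h * k)) := by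
  set B : ℝ := (1 + ρ ^ 2) * (α + β) - 4 * ρ * (h * k) with hB
  have hA : 0 ≤ α + β := by rw [← hα, ← hβ]; positivity
  have hB0 : 0 ≤ B := by
    have e : B = (h - ρ * k) ^ 2 + (k - ρ * h) ^ 2 := by
      rw [hB, ← hα, ← hβ]
      ring
    rw [e]
    positivity
  have hAB : (β - α) ^ 2 ≤ (α + β) * B := by
    have e : (α + β) * B - (β - α) ^ 2 = (ρ * (h ^ 2 + k ^ 2) - 2 * (h * k)) ^ 2 := by
      rw [hB, ← hα, ← hβ]
      ring
    have := sq_nonneg (ρ * (h ^ 2 + k ^ 2) - 2 * (h * k))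
    linarith
  have hR : 0 ≤ (α + β) * f ^ 2 + t ^ 2 / 4 * B := by positivity
  refine le_trans (le_abs_self _) (abs_le_of_sq_le_sq ?_ hR)
  have e1 : (t * (|β - α| * f)) ^ 2 = (t * f) ^ 2 * (β - α) ^ 2 := by
    rw [mul_pow, mul_pow, sq_abs]
    ring
  have e2 : (t * f) ^ 2 * (β - α) ^ 2 ≤ (t * f) ^ 2 * ((α + β) * B) :=
    mul_le_mul_of_nonneg_left hAB (sq_nonneg _)
  rw [e1]
  refine e2.trans ?_
  nlinarith [sq_nonneg ((α + β) * f ^ 2 - t ^ 2 / 4 * B)]

theorem main (hGM : GaussMoments) : Overlap2 := by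
  intro n V K hV hK c₁ c₂ η₁ η₂ t ht
  obtain ⟨gi, g1⟩ := gd_int (n := n) hGM
  have hgi : ∀ c : E n, Integrable (fun x => gd n (x - c)) := fun c => gi.comp_sub_right c
  have hg1 : ∀ c : E n, ∫ x, gd n (x - c) = 1 := fun c => by
    rw [integral_sub_right_eq_self (gd n) c, g1]
  set ρ := Real.exp (-‖c₂ - c₁‖ ^ 2 / 8) with hρ
  have hρ2 : Real.exp (-‖c₂ - c₁‖ ^ 2 / 4) = ρ ^ 2 := by
    rw [hρ, ← Real.exp_nat_mul]
    congr 1
    push_cast
    ring
  rw [hρ2]
  set a := ‖η₂ - η₁‖ with ha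
  have hrr : ∫ x, rr c₁ x * rr c₂ x = ρ := by
    simp only [rr_mul]
    rw [integral_mul_const, hg1, one_mul]
  have hrri : Integrable (fun x => rr c₁ x * rr c₂ x) := by
    simp only [rr_mul]
    exact (hgi _).mul_const _
  -- the centre
  set m : E n := (1 / 2 : ℝ) • (η₁ + η₂) with hm
  set b : E n := (1 / 2 : ℝ) • (η₂ - η₁) with hb
  have hbn : ‖b‖ = a / 2 := by
    rw [hb, norm_smul, Real.norm_of_nonneg (by norm_num)]
    ring
  have hF1 : ∀ x, V x - η₁ = (V x - m) + b := by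
    intro x
    rw [hm, hb]
    module
  have hF2 : ∀ x, V x - η₂ = (V x - m) - b := by
    intro x
    rw [hm, hb]
    module
  have hFb : ∀ x, ‖V x - m‖ ≤ K + ‖m‖ := fun x => (norm_sub_le _ _).trans (by linarith [hK x])
  have hgm : ∀ c : E n, Measurable (fun x : E n => gd n (x - c)) := fun c =>
    (gd_cont.comp (continuous_id.sub continuous_const)).measurable
  have hFm : Measurable (fun x => V x - m) := hV.sub_const m
  -- integrability
  have hQi : ∀ c : E n, Integrable (fun x => gd n (x - c) * ‖V x - m‖ ^ 2) := by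
    intro c
    refine ((hgi c).mul_const ((K + ‖m‖) ^ 2)).mono'
      ((hgm c).mul (hFm.norm.pow_const 2)).aestronglyMeasurable (Eventually.of_forall fun x => ?_)
    rw [Real.norm_of_nonneg (mul_nonneg (gd_nonneg _) (sq_nonneg _))]
    exact mul_le_mul_of_nonneg_left (pow_le_pow_left₀ (norm_nonneg _) (hFb x) 2) (gd_nonneg _)
  have hVi : ∀ c : E n, Integrable (fun x => gd n (x - c) • (V x - m)) := by
    intro c
    refine ((hgi c).mul_const (K + ‖m‖)).mono' ((hgm c).smul hFm).aestronglyMeasurable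
      (Eventually.of_forall fun x => ?_)
    rw [norm_smul, Real.norm_of_nonneg (gd_nonneg _)]
    exact mul_le_mul_of_nonneg_left (hFb x) (gd_nonneg _)
  have hIi : ∀ c : E n, Integrable (fun x => gd n (x - c) * (inner ℝ b (V x - m) : ℝ)) := by
    intro c
    have h := (hVi c).const_inner (𝕜 := ℝ) b
    refine h.congr (Eventually.of_forall fun x => ?_)
    simp only
    rw [real_inner_smul_right]
  have hIv : ∀ c : E n, ∫ x, gd n (x - c) * (inner ℝ b (V x - m) : ℝ) =
      inner ℝ b (∫ x, gd n (x - c) • (V x - m)) := by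
    intro c
    rw [← integral_inner (hVi c) b]
    refine integral_congr_ae (Eventually.of_forall fun x => ?_)
    simp only
    rw [real_inner_smul_right]
  -- the difference of the integrals
  set D : E n := (∫ x, V (x + c₂) ∂(gam n)) - ∫ x, V (x + c₁) ∂(gam n) with hD
  have hDc : ∀ c : E n, ∫ x, V (x + c) ∂(gam n) = (∫ x, gd n (x - c) • (V x - m)) + m := by
    intro c
    rw [int_shift]
    have e : ∀ x, gd n (x - c) • V x = gd n (x - c) • (V x - m) + gd n (x - c) • m := by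
      intro x
      rw [← smul_add, sub_add_cancel]
    simp only [e]
    rw [integral_add (hVi c) ((hgi c).smul_const m), integral_smul_const, hg1, one_smul]
  have hD2 : D = (∫ x, gd n (x - c₂) • (V x - m)) - ∫ x, gd n (x - c₁) • (V x - m) := by
    rw [hD, hDc, hDc]
    abel
  -- the second moments
  have hY1 : ∫ x, ‖V (x + c₁) - η₁‖ ^ 2 ∂(gam n) = (∫ x, gd n (x - c₁) * ‖V x - m‖ ^ 2) +
      2 * (inner ℝ b (∫ x, gd n (x - c₁) • (V x - m)) : ℝ) + a ^ 2 / 4 := by
    rw [int_shift (fun x => ‖V x - η₁‖ ^ 2) c₁]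
    have e : ∀ x, gd n (x - c₁) • ‖V x - η₁‖ ^ 2 = (gd n (x - c₁) * ‖V x - m‖ ^ 2 +
        2 * (gd n (x - c₁) * (inner ℝ b (V x - m) : ℝ))) + gd n (x - c₁) * (a ^ 2 / 4) := by
      intro x
      rw [hF1, norm_add_sq_real, hbn, real_inner_comm, smul_eq_mul]
      ring
    simp only [e]
    have j1 : Integrable (fun x => gd n (x - c₁) * ‖V x - m‖ ^ 2 +
        2 * (gd n (x - c₁) * (inner ℝ b (V x - m) : ℝ))) := (hQi c₁).add ((hIi c₁).const_mul 2)
    rw [integral_add j1 ((hgi c₁).mul_const _), integral_add (hQi c₁) ((hIi c₁).const_mul 2),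
      integral_const_mul, integral_mul_const, hg1, hIv]
    ring
  have hY2 : ∫ x, ‖V (x + c₂) - η₂‖ ^ 2 ∂(gam n) = (∫ x, gd n (x - c₂) * ‖V x - m‖ ^ 2) -
      2 * (inner ℝ b (∫ x, gd n (x - c₂) • (V x - m)) : ℝ) + a ^ 2 / 4 := by
    rw [int_shift (fun x => ‖V x - η₂‖ ^ 2) c₂]
    have e : ∀ x, gd n (x - c₂) • ‖V x - η₂‖ ^ 2 = (gd n (x - c₂) * ‖V x - m‖ ^ 2 -
        2 * (gd n (x - c₂) * (inner ℝ b (V x - m) : ℝ))) + gd n (x - c₂) * (a ^ 2 / 4) := by
      intro x
      rw [hF2, norm_sub_sq_real, hbn, real_inner_comm, smul_eq_mul]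
      ring
    simp only [e]
    have j1 : Integrable (fun x => gd n (x - c₂) * ‖V x - m‖ ^ 2 -
        2 * (gd n (x - c₂) * (inner ℝ b (V x - m) : ℝ))) := (hQi c₂).sub ((hIi c₂).const_mul 2)
    rw [integral_add j1 ((hgi c₂).mul_const _), integral_sub (hQi c₂) ((hIi c₂).const_mul 2),
      integral_const_mul, integral_mul_const, hg1, hIv]
    ring
  set Q1 := ∫ x, gd n (x - c₁) * ‖V x - m‖ ^ 2 with hQ1
  set Q2 := ∫ x, gd n (x - c₂) * ‖V x - m‖ ^ 2 with hQ2
  have hsum : Q1 + Q2 ≤ (∫ x, ‖V (x + c₁) - η₁‖ ^ 2 ∂(gam n)) +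
      (∫ x, ‖V (x + c₂) - η₂‖ ^ 2 ∂(gam n)) - a ^ 2 / 2 + a * ‖D‖ := by
    rw [hY1, hY2]
    have h1 : (inner ℝ b D : ℝ) ≤ a / 2 * ‖D‖ := by
      have := real_inner_le_norm b D
      rwa [hbn] at this
    rw [hD2, inner_sub_right] at h1
    rw [← hD2] at h1
    linarith
  -- the first moment
  have hdi : Integrable (fun x => (gd n (x - c₂) - gd n (x - c₁)) • (V x - m)) := by
    refine ((hVi c₂).sub (hVi c₁)).congr (Eventually.of_forall fun x => ?_)
    simp only [Pi.sub_apply]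
    rw [sub_smul]
  have hDn : ‖D‖ ≤ ∫ x, |gd n (x - c₂) - gd n (x - c₁)| * ‖V x - m‖ := by
    have e : D = ∫ x, (gd n (x - c₂) - gd n (x - c₁)) • (V x - m) := by
      rw [hD2, ← integral_sub (hVi c₂) (hVi c₁)]
      refine integral_congr_ae (Eventually.of_forall fun x => ?_)
      simp only
      rw [sub_smul]
    rw [e]
    refine (norm_integral_le_integral_norm _).trans (le_of_eq ?_)
    refine integral_congr_ae (Eventually.of_forall fun x => ?_)
    simp only
    rw [norm_smul, Real.norm_eq_abs]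
  have hni : Integrable (fun x => |gd n (x - c₂) - gd n (x - c₁)| * ‖V x - m‖) := by
    refine hdi.norm.congr (Eventually.of_forall fun x => ?_)
    simp only
    rw [norm_smul, Real.norm_eq_abs]
  have hAi : Integrable (fun x => gd n (x - c₁) + gd n (x - c₂)) := (hgi c₁).add (hgi c₂)
  have hBi : Integrable (fun x => (1 + ρ ^ 2) * (gd n (x - c₁) + gd n (x - c₂)) -
      4 * ρ * (rr c₁ x * rr c₂ x)) := (hAi.const_mul _).sub (hrri.const_mul _)
  have hQQ : Integrable (fun x => (gd n (x - c₁) + gd n (x - c₂)) * ‖V x - m‖ ^ 2) := by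
    refine ((hQi c₁).add (hQi c₂)).congr (Eventually.of_forall fun x => ?_)
    simp only [Pi.add_apply]
    ring
  have h3 : t * ‖D‖ ≤ (Q1 + Q2) + t ^ 2 / 2 * (1 - ρ ^ 2) := by
    calc t * ‖D‖ ≤ t * ∫ x, |gd n (x - c₂) - gd n (x - c₁)| * ‖V x - m‖ :=
          mul_le_mul_of_nonneg_left hDn ht
      _ = ∫ x, t * (|gd n (x - c₂) - gd n (x - c₁)| * ‖V x - m‖) := (integral_const_mul _ _).symm
      _ ≤ ∫ x, ((gd n (x - c₁) + gd n (x - c₂)) * ‖V x - m‖ ^ 2 +
          t ^ 2 / 4 * ((1 + ρ ^ 2) * (gd n (x - c₁) + gd n (x - c₂)) -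
            4 * ρ * (rr c₁ x * rr c₂ x))) := by
          refine integral_mono (hni.const_mul t) (hQQ.add (hBi.const_mul _)) fun x => ?_
          exact ptw (rr_sq c₁ x) (rr_sq c₂ x)
      _ = (Q1 + Q2) + t ^ 2 / 2 * (1 - ρ ^ 2) := by
          rw [integral_add hQQ (hBi.const_mul _), integral_const_mul,
            integral_sub (hAi.const_mul _) (hrri.const_mul _), integral_const_mul,
            integral_const_mul, integral_add (hgi c₁) (hgi c₂), hg1, hg1, hrr]
          have e : ∫ x, (gd n (x - c₁) + gd n (x - c₂)) * ‖V x - m‖ ^ 2 = Q1 + Q2 := by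
            rw [hQ1, hQ2, ← integral_add (hQi c₁) (hQi c₂)]
            refine integral_congr_ae (Eventually.of_forall fun x => ?_)
            simp only
            ring
          rw [e]
          ring
  linarith

end Pool.Agent.TH253.FV.OV
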