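import Pool.Agent.W716.FV.NU
import Pool.Agent.TH253.FV.Asm
import Pool.Agent.TH253.FV.HS
import Pool.Agent.TH253.FV.OS
import Pool.Agent.TH253.FV.OV
import Pool.Agent.TH253.FV.DL
import Pool.Agent.TH253.FV.KNB
import Pool.Agent.TH253.FV.IN
import Pool.Agent.TH253.FV.PP
import Pool.Agent.TH253.FV.NF

/-!
# The main theorem
-/

set_option autoImplicit false

namespace Pool.Agent.TH253.FV

open Pool.Agent.W716.FV (kM kS gM gF pM tD sY xI aI rC aR uF pF jA nU cV)

theorem hsB : HSBound := HS.main kM gM pM gF xI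
theorem osB : OneSided := OS.main gM pM gF
theorem ov2 : Overlap2 := OV.main gM
theorem kn2 : KappaNum2 := KNB.main kM kS
theorem in2 : Inject2 := IN.main kM pM gF xI ov2 kn2
theorem pp2 : PerP2 := PP.main tD sY xI aI hsB osB DL.main in2

/-- the main theorem -/
theorem final : Asm.Main2 := Asm.main pp2 GL.main rC NF.main aR uF pF jA nU cV

end Pool.Agent.TH253.FV
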