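import Pool.Agent.TH253.FV.Stm

/-!
# Lower bound for the integral of the weights
-/

set_option autoImplicit false

open MeasureTheory Set

namespace Pool.Agent.TH253.FV.GL

open Pool.Agent.W716.FV (E)

theorem pp_nonneg {s : ℝ} (h0 : 0 ≤ s) (h1 : s ≤ 17 / 25) : 0 ≤ pp s := by
  unfold pp
  nlinarith [mul_nonneg h0 (sub_nonneg.2 h1), pow_nonneg h0 2, pow_nonneg h0 3,
    mul_nonneg (pow_nonneg h0 2) (sub_nonneg.2 h1)]

theorem pp_cont : Continuous pp := by
  unfold pp
  fun_prop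

/-- the smooth part of the weight -/
noncomputable def w0 {n : ℕ} (η : E n) (z : ℝ × E n) : ℝ :=
  Real.exp (-‖η‖ ^ 2 / 2 - inner ℝ z.2 η - 4 * z.1)

lemma w0_meas {n : ℕ} : Measurable (fun p : E n × (ℝ × E n) =>
    ENNReal.ofReal (pp p.2.1 * w0 p.1 p.2)) := by
  apply ENNReal.measurable_ofReal.comp
  apply Continuous.measurable
  unfold w0 pp
  fun_prop

/-- the Gaussian integral -/
lemma int_w0 {n : ℕ} (z : ℝ × E n) (hz : 0 ≤ pp z.1) :
    ENNReal.ofReal (√(2 * Real.pi) ^ n * (pp z.1 * Real.exp (-(4 * z.1)))) ≤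
      ∫⁻ η : E n, ENNReal.ofReal (pp z.1 * w0 η z) := by
  have h1 : ∫ v : E n, Real.exp (-(1 / 2) * ‖v‖ ^ 2) = √(2 * Real.pi) ^ n := by
    rw [GaussianFourier.integral_rexp_neg_mul_sq_norm (by norm_num)]
    rw [Real.sqrt_eq_rpow, ← Real.rpow_natCast, ← Real.rpow_mul (by positivity)]
    congr 1
    · ring
    · simp
      ring
  have hint : Integrable (fun v : E n => Real.exp (-(1 / 2) * ‖v‖ ^ 2)) := by
    by_contra hc
    rw [integral_undef hc] at h1
    have : (0 : ℝ) < √(2 * Real.pi) ^ n := by positivity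
    linarith
  have h2 : ∫⁻ v : E n, ENNReal.ofReal (Real.exp (-(1 / 2) * ‖v‖ ^ 2)) =
      ENNReal.ofReal (√(2 * Real.pi) ^ n) := by
    rw [← h1, ofReal_integral_eq_lintegral_ofReal hint]
    exact Filter.Eventually.of_forall fun _ => (Real.exp_pos _).le
  have h3 : ∫⁻ v : E n, ENNReal.ofReal (Real.exp (-(1 / 2) * ‖v + z.2‖ ^ 2)) =
      ENNReal.ofReal (√(2 * Real.pi) ^ n) := by
    rw [← h2]
    exact lintegral_add_right_eq_self
      (fun v : E n => ENNReal.ofReal (Real.exp (-(1 / 2) * ‖v‖ ^ 2))) z.2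
  rw [ENNReal.ofReal_mul (by positivity), ← h3, mul_comm,
    ← lintegral_const_mul _ (by fun_prop)]
  apply lintegral_mono
  intro v
  simp only
  rw [← ENNReal.ofReal_mul (mul_nonneg hz (Real.exp_pos _).le), mul_assoc, ← Real.exp_add]
  apply ENNReal.ofReal_le_ofReal
  unfold w0
  apply mul_le_mul_of_nonneg_left _ hz
  apply Real.exp_le_exp.2
  have h4 : ‖v + z.2‖ ^ 2 = ‖v‖ ^ 2 + 2 * inner ℝ v z.2 + ‖z.2‖ ^ 2 := by
    rw [@norm_add_sq ℝ]
    simp
  rw [h4, real_inner_comm]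
  nlinarith [sq_nonneg ‖z.2‖]

/-- the integral over `s` -/
lemma int_s (C : ℝ) (hC : 0 ≤ C) :
    ∫⁻ s in Set.Ioc (1 / 60000 : ℝ) (17 / 25), ENNReal.ofReal (C * (pp s * Real.exp (-(4 * s)))) =
      ENNReal.ofReal (C * KK) := by
  have h1 : ∫ s in (1 / 60000 : ℝ)..(17 / 25), C * (pp s * Real.exp (-(4 * s))) = C * KK := by
    have hd : ∀ s ∈ Set.uIcc (1 / 60000 : ℝ) (17 / 25 : ℝ), HasDerivAt
        (fun s => -C * (qq s * Real.exp (-(4 * s)))) (C * (pp s * Real.exp (-(4 * s)))) s := by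
      intro s _
      have hq : HasDerivAt qq (-419 / 2016 - 83 / 1008 * (2 * s) - 1 / 28 * (3 * s ^ 2)) s := by
        have h1 := ((hasDerivAt_id s).const_mul (419 / 2016 : ℝ)).const_sub (1597 / 8064)
        have h2 := h1.sub ((hasDerivAt_pow 2 s).const_mul (83 / 1008 : ℝ))
        have h3 := h2.sub ((hasDerivAt_pow 3 s).const_mul (1 / 28 : ℝ))
        refine h3.congr_deriv ?_
        norm_num
      have he : HasDerivAt (fun s : ℝ => Real.exp (-(4 * s))) (Real.exp (-(4 * s)) * -(4 * 1)) s :=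
        (((hasDerivAt_id s).const_mul (4 : ℝ)).neg).exp
      have h := (hq.mul he).const_mul (-C)
      refine h.congr_deriv ?_
      unfold qq pp
      ring
    rw [intervalIntegral.integral_eq_sub_of_hasDerivAt hd]
    · unfold KK
      ring
    · apply Continuous.intervalIntegrable
      unfold pp
      fun_prop
  rw [intervalIntegral.integral_of_le (by norm_num)] at h1
  rw [← h1, ofReal_integral_eq_lintegral_ofReal]
  · have hc : Continuous (fun s => C * (pp s * Real.exp (-(4 * s)))) := by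
      unfold pp
      fun_prop
    exact (hc.integrableOn_Icc).mono_set Ioc_subset_Icc_self
  · refine (ae_restrict_iff' measurableSet_Ioc).2 (Filter.Eventually.of_forall fun s hs => ?_)
    exact mul_nonneg hC (mul_nonneg (pp_nonneg (by linarith [hs.1]) hs.2) (Real.exp_pos _).le)

theorem main : GaussLower2 := by
  intro n
  set ε : ℝ := 1 / 100 with hε
  set C : ℝ := √(2 * Real.pi) ^ n with hC
  have hC0 : 0 ≤ C := by positivity
  set A : Set (ℝ × E n) := {z : ℝ × E n | ‖z.2‖ ^ 2 / 6 < z.1} with hA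
  set B : Set (ℝ × E n) := {z : ℝ × E n | ‖z.2‖ ≤ ε ∧ 0 ≤ z.1 ∧ z.1 ≤ 17 / 25} with hB
  have hAm : MeasurableSet A := by
    apply IsOpen.measurableSet
    exact isOpen_lt (by fun_prop) (by fun_prop)
  have hBm : MeasurableSet B := by
    have c1 : IsClosed {z : ℝ × E n | ‖z.2‖ ≤ ε} := isClosed_le (by fun_prop) (by fun_prop)
    have c0 : IsClosed {z : ℝ × E n | 0 ≤ z.1} := isClosed_le (by fun_prop) (by fun_prop)
    have c2 : IsClosed {z : ℝ × E n | z.1 ≤ 17 / 25} := isClosed_le (by fun_prop) (by fun_prop)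
    exact (c1.inter (c0.inter c2)).measurableSet
  -- the weight as an indicator
  have hw : ∀ (η : E n) (z : ℝ × E n), ENNReal.ofReal (wt ε η z) =
      B.indicator (fun z => ENNReal.ofReal (pp z.1 * w0 η z)) z := by
    intro η z
    unfold wt
    by_cases hz : z ∈ B
    · have hz' : ‖z.2‖ ≤ ε ∧ 0 ≤ z.1 ∧ z.1 ≤ 17 / 25 := hz
      rw [indicator_of_mem hz, if_pos hz']
      rfl
    · have hz' : ¬ (‖z.2‖ ≤ ε ∧ 0 ≤ z.1 ∧ z.1 ≤ 17 / 25) := hz
      rw [indicator_of_notMem hz, if_neg hz']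
      simp
  have h1 : ∫⁻ η : E n, ∫⁻ z in A, ENNReal.ofReal (wt ε η z) =
      ∫⁻ η : E n, ∫⁻ z in A ∩ B, ENNReal.ofReal (pp z.1 * w0 η z) := by
    congr 1
    funext η
    simp_rw [hw]
    rw [lintegral_indicator hBm, Measure.restrict_restrict hBm, inter_comm]
  have h2 : ∫⁻ η : E n, ∫⁻ z in A ∩ B, ENNReal.ofReal (pp z.1 * w0 η z) =
      ∫⁻ z in A ∩ B, ∫⁻ η : E n, ENNReal.ofReal (pp z.1 * w0 η z) := by
    apply lintegral_lintegral_swap
    exact w0_meas.aemeasurable
  rw [h1, h2]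
  have hABm : MeasurableSet (A ∩ B) := hAm.inter hBm
  have h3 : ∫⁻ z in A ∩ B, ENNReal.ofReal (C * (pp z.1 * Real.exp (-(4 * z.1)))) ≤
      ∫⁻ z in A ∩ B, ∫⁻ η : E n, ENNReal.ofReal (pp z.1 * w0 η z) := by
    apply setLIntegral_mono' hABm
    intro z hz
    have hz' : ‖z.2‖ ≤ ε ∧ 0 ≤ z.1 ∧ z.1 ≤ 17 / 25 := hz.2
    exact int_w0 z (pp_nonneg hz'.2.1 hz'.2.2)
  refine le_trans ?_ h3
  rw [← lintegral_indicator hABm]
  have hfm0 : Measurable
      (fun z : ℝ × E n => ENNReal.ofReal (C * (pp z.1 * Real.exp (-(4 * z.1))))) := by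
    unfold pp
    fun_prop
  have hfm : Measurable ((A ∩ B).indicator
      fun z : ℝ × E n => ENNReal.ofReal (C * (pp z.1 * Real.exp (-(4 * z.1))))) :=
    hfm0.indicator hABm
  rw [Measure.volume_eq_prod, lintegral_prod_symm _ hfm.aemeasurable]
  -- restrict to the ball
  have h4 : ∀ τ : E n, (Metric.closedBall (0 : E n) ε).indicator (fun _ =>
      ENNReal.ofReal (C * KK)) τ ≤
      ∫⁻ s : ℝ, (A ∩ B).indicator
        (fun z : ℝ × E n => ENNReal.ofReal (C * (pp z.1 * Real.exp (-(4 * z.1))))) (s, τ) := by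
    intro τ
    by_cases hτ : τ ∈ Metric.closedBall (0 : E n) ε
    · rw [indicator_of_mem hτ]
      rw [mem_closedBall_zero_iff] at hτ
      have hτ2 : ‖τ‖ ^ 2 ≤ ε ^ 2 := by
        have := norm_nonneg τ
        nlinarith
      have ha : ‖τ‖ ^ 2 / 6 ≤ 1 / 60000 := by
        rw [hε] at hτ2
        linarith
      rw [← int_s C hC0, ← lintegral_indicator measurableSet_Ioc]
      refine lintegral_mono fun s => ?_
      by_cases hs : s ∈ Set.Ioc (1 / 60000 : ℝ) (17 / 25 : ℝ)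
      · rw [indicator_of_mem hs, indicator_of_mem]
        refine ⟨?_, hτ, ?_, hs.2⟩
        · show ‖τ‖ ^ 2 / 6 < s
          linarith [hs.1]
        · show 0 ≤ s
          linarith [hs.1]
      · rw [indicator_of_notMem hs]
        exact zero_le
    · rw [indicator_of_notMem hτ]
      exact zero_le
  calc _ = ∫⁻ τ : E n, (Metric.closedBall (0 : E n) ε).indicator (fun _ =>
      ENNReal.ofReal (C * KK)) τ := by
        rw [lintegral_indicator Metric.isClosed_closedBall.measurableSet, lintegral_const,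
          Measure.restrict_apply_univ]
    _ ≤ _ := lintegral_mono h4

end Pool.Agent.TH253.FV.GL
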