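import Pool.Agent.TH253.FV.Stm
import Pool.Agent.W366.FV.KN

/-!
# A lower bound for a Gaussian integral
-/

set_option autoImplicit false

open MeasureTheory

namespace Pool.Agent.TH253.FV.KNA

theorem one_add_pow_le (k : ℝ) (m : ℕ) : (1 + k ^ 2) ^ m ≤ Real.exp (m * k ^ 2) := by
  have h := Real.add_one_le_exp (k ^ 2)
  calc (1 + k ^ 2) ^ m ≤ Real.exp (k ^ 2) ^ m :=
        pow_le_pow_left₀ (by positivity) (by linarith) m
    _ = Real.exp (m * k ^ 2) := (Real.exp_nat_mul _ _).symm

/-- lower bound for `∫ (1+k²)^(-m) exp(-b k²) dk` -/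
theorem gauss_lower {b : ℝ} (hb : 0 < b) (m : ℕ) :
    √(Real.pi / (b + m)) ≤ ∫ k : ℝ, Real.exp (-b * k ^ 2) / (1 + k ^ 2) ^ m := by
  rw [← integral_gaussian (b + m)]
  refine integral_mono (integrable_exp_neg_mul_sq (by positivity)) ?_ fun k => ?_
  · refine (integrable_exp_neg_mul_sq hb).mono' ?_ (Filter.Eventually.of_forall fun k => ?_)
    · refine Continuous.aestronglyMeasurable ?_
      exact Continuous.div (by fun_prop) (by fun_prop) fun k => by positivity
    · rw [Real.norm_of_nonneg (by positivity)]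
      refine div_le_self (Real.exp_pos _).le ?_
      exact one_le_pow₀ (by nlinarith [sq_nonneg k])
  · show Real.exp (-(b + m) * k ^ 2) ≤ Real.exp (-b * k ^ 2) / (1 + k ^ 2) ^ m
    rw [le_div_iff₀ (by positivity)]
    calc Real.exp (-(b + m) * k ^ 2) * (1 + k ^ 2) ^ m ≤
        Real.exp (-(b + m) * k ^ 2) * Real.exp (m * k ^ 2) :=
          mul_le_mul_of_nonneg_left (one_add_pow_le k m) (Real.exp_pos _).le
      _ = Real.exp (-b * k ^ 2) := by
          rw [← Real.exp_add]
          ring_nf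

end Pool.Agent.TH253.FV.KNA
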