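import Pool.Agent.W716.FV.StmA

/-!
# A larger constant in the filling volume inequality: definitions and statements

The library `Pool.Agent.W716.FV` proves the constant `1/5` with the weight
`1[|τ| ≤ ε, s ≤ 27/200] exp(-|η|²/2 - ⟨τ,η⟩ - 20 s/3)`.  Here the weight is
`1[|τ| ≤ ε, 0 ≤ s ≤ 17/25] p(s) exp(-|η|²/2 - ⟨τ,η⟩ - 4 s)`, `p` a cubic polynomial; this needs
injectivity of `T` on the larger set `S ≤ 17/25`, the bounds `|A|² ≤ 4 S / 3` (Hilbert-Schmidt norm)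
and `A ≤ S` for the symmetric operator `A`, and a sharper lower bound for the determinant of
`A - 1`.
-/

set_option autoImplicit false

open MeasureTheory

namespace Pool.Agent.TH253.FV

open Pool.Agent.W716.FV (E gam nu P xi Good TT SS gr AA EX XX)

/-- the polynomial factor of the weight -/
noncomputable def pp (s : ℝ) : ℝ := 1 - 2 / 3 * s - 2 / 9 * s ^ 2 - 1 / 7 * s ^ 3

/-- minus the polynomial factor of an antiderivative of `pp s * exp (-4 s)` -/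
noncomputable def qq (s : ℝ) : ℝ :=
  1597 / 8064 - 419 / 2016 * s - 83 / 1008 * s ^ 2 - 1 / 28 * s ^ 3

/-- the weight at `z = (s, τ)` -/
noncomputable def wt {n : ℕ} (ε : ℝ) (η : E n) (z : ℝ × E n) : ℝ :=
  open Classical in
  if ‖z.2‖ ≤ ε ∧ 0 ≤ z.1 ∧ z.1 ≤ 17 / 25 then
    pp z.1 * Real.exp (-‖η‖ ^ 2 / 2 - inner ℝ z.2 η - 4 * z.1) else 0

/-- the integral of `pp s * exp (-4 s)` over `[1/60000, 17/25]` -/
noncomputable def KK : ℝ :=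
  qq (1 / 60000) * Real.exp (-(4 * (1 / 60000))) - qq (17 / 25) * Real.exp (-(4 * (17 / 25)))

/-- Hilbert-Schmidt norm of `A` -/
def HSBound : Prop :=
  ∀ (n : ℕ) (R : ℝ) (u : E n → ℝ), 0 ≤ R → Good R u → ∀ η : E n,
    ∑ i, ‖AA u η (EuclideanSpace.single i 1)‖ ^ 2 ≤ 4 / 3 * SS R u η

/-- one-sided bound for `A` -/
def OneSided : Prop :=
  ∀ (n : ℕ) (R : ℝ) (u : E n → ℝ), 0 ≤ R → Good R u → ∀ η v : E n,
    (inner ℝ (AA u η v) v : ℝ) ≤ SS R u η * ‖v‖ ^ 2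

/-- lower bound for a determinant -/
def DetLower2 : Prop :=
  ∀ (n : ℕ) (A : E n →L[ℝ] E n) (s : ℝ), (∀ v w : E n, (inner ℝ (A v) w : ℝ) = inner ℝ (A w) v) →
    (∀ v : E n, (inner ℝ (A v) v : ℝ) ≤ s * ‖v‖ ^ 2) →
    0 ≤ s → s ≤ 17 / 25 → ∑ i, ‖A (EuclideanSpace.single i 1)‖ ^ 2 ≤ 4 / 3 * s →
    pp s * Real.exp (-(LinearMap.trace ℝ (E n) (A : E n →ₗ[ℝ] E n))) ≤
      |(A - ContinuousLinearMap.id ℝ (E n)).det|

/-- overlap of two shifted Gaussians -/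
def Overlap2 : Prop :=
  ∀ (n : ℕ) (V : E n → E n) (K : ℝ), Measurable V → (∀ x, ‖V x‖ ≤ K) →
    ∀ (c₁ c₂ η₁ η₂ : E n) (t : ℝ), 0 ≤ t →
    (t - ‖η₂ - η₁‖) * ‖(∫ x, V (x + c₂) ∂(gam n)) - ∫ x, V (x + c₁) ∂(gam n)‖ ≤
      (∫ x, ‖V (x + c₁) - η₁‖ ^ 2 ∂(gam n)) + (∫ x, ‖V (x + c₂) - η₂‖ ^ 2 ∂(gam n)) -
        ‖η₂ - η₁‖ ^ 2 / 2 + t ^ 2 / 2 * (1 - Real.exp (-‖c₂ - c₁‖ ^ 2 / 4))

/-- numerical bound -/
def KappaNum2 : Prop :=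
  ∀ p : ℝ, 0 < p → ∃ l : ℝ, 0 ≤ l ∧
    136 / 25 < p * ((∫ κ, (1 + κ ^ 2) * Real.exp (-(p * κ ^ 2)) ∂nu) +
      2 * l * (∫ κ, Real.exp (-(p * κ ^ 2)) ∂nu) -
      l ^ 2 * ∫ κ, (1 - Real.exp (-(p * κ ^ 2))) / (1 + κ ^ 2) ∂nu)

/-- injectivity of `T` on the set `S ≤ 17/25` -/
def Inject2 : Prop :=
  ∀ (n : ℕ) (R : ℝ) (u : E n → ℝ), 0 ≤ R → Good R u → ∀ η₁ η₂ : E n,
    SS R u η₁ ≤ 17 / 25 → SS R u η₂ ≤ 17 / 25 → TT u η₁ = TT u η₂ → η₁ = η₂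

/-- the estimate for a fixed point of the cone -/
def PerP2 : Prop :=
  ∀ (n : ℕ) (R : ℝ) (u : E n → ℝ), 0 ≤ R → Good R u → ∀ ε : ℝ, 0 < ε →
    ∫⁻ η : E n, ENNReal.ofReal (wt ε η (SS R u η, TT u η) * Real.exp (SS R u η - 1 / 2)) ≤
      ENNReal.ofReal (Real.exp (-(R ^ 2) / 2 - 1 / 2)) *
        volume (Metric.closedBall (0 : E n) ε)

/-- lower bound for the integral of the weights over the region above the paraboloid -/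
def GaussLower2 : Prop :=
  ∀ n : ℕ,
    ENNReal.ofReal (√(2 * Real.pi) ^ n * KK) * volume (Metric.closedBall (0 : E n) (1 / 100)) ≤
    ∫⁻ η : E n, ∫⁻ z in {z : ℝ × E n | ‖z.2‖ ^ 2 / 6 < z.1}, ENNReal.ofReal (wt (1 / 100) η z)

/-- numerical constant -/
def NumFinal2 : Prop :=
  9 / 40 ≤ √3 * Real.exp (1 / 2) * KK / √(2 * Real.pi)

end Pool.Agent.TH253.FV
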